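import Mathlib

/-!
# Length saturation for optimal connected stiffeners (MP_2681e5_an): definitions and statements

The plane is `ℂ` with its Euclidean norm and Lebesgue measure, `μH[1]` is the one-dimensional
Hausdorff measure, and the operator norm of `fderiv ℝ u z : ℂ →L[ℝ] ℝ` is the Euclidean norm of
the gradient of `u` at `z`.
-/

set_option autoImplicit false

open MeasureTheory Set Metric Filter Topology
open scoped ContDiff ENNReal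

namespace Pool.Agent.H234.ST

/-- `u` is a real function of class `C_c^∞(Ω)`. -/
def IsTest (Ω : Set ℂ) (u : ℂ → ℝ) : Prop :=
  ContDiff ℝ ∞ u ∧ HasCompactSupport u ∧ tsupport u ⊆ Ω

/-- `∫_Ω |∇u|² dx + m ∫ |∇u|² dμ`. -/
noncomputable def energy (Ω : Set ℂ) (m : ℝ) (μ : Measure ℂ) (u : ℂ → ℝ) : ℝ :=
  (∫ z in Ω, ‖fderiv ℝ u z‖ ^ 2) + m * ∫ z, ‖fderiv ℝ u z‖ ^ 2 ∂μ

/-- The first eigenvalue `λ₁(μ)`, the infimum of the quotients. -/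
noncomputable def lam (Ω : Set ℂ) (m : ℝ) (μ : Measure ℂ) : ℝ :=
  sInf {q : ℝ | ∃ u : ℂ → ℝ, IsTest Ω u ∧ u ≠ 0 ∧
    q = energy Ω m μ u / ∫ z in Ω, u z ^ 2}

/-- The class `𝒜ᶜ_L` of connected stiffeners of `Ω` (the zero measure, whose support is empty, is
admitted). -/
structure Adm (Ω : Set ℂ) (L : ℝ) (μ : Measure ℂ) : Prop where
  carried : μ (closure Ω)ᶜ = 0
  mass : μ univ ≤ ENNReal.ofReal L
  conn : IsPreconnected μ.support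
  ge : (μH[1] : Measure ℂ).restrict μ.support ≤ μ

/-- `H¹` restricted to `S`. -/
noncomputable abbrev HS (S : Set ℂ) : Measure ℂ := (μH[1] : Measure ℂ).restrict S

/-- The rectangle `(0,3) × (0,1)`. -/
def rect : Set ℂ := {z | 0 < z.re ∧ z.re < 3 ∧ 0 < z.im ∧ z.im < 1}

/-- The segment `{3/2} × [0,1]`. -/
def seg : Set ℂ := {z | z.re = 3 / 2 ∧ 0 ≤ z.im ∧ z.im ≤ 1}

/-! ## Gołąb's theorem -/

/-- `x` is a tangent point of `S`: with respect to some direction `τ`, the diameter of every small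
ball around `x` is close to `S`. -/
def Tan (S : Set ℂ) (x : ℂ) : Prop :=
  ∃ τ : ℂ, ‖τ‖ = 1 ∧ ∀ η : ℝ, 0 < η → ∃ ρ : ℝ, 0 < ρ ∧ ∀ r : ℝ, 0 < r → r < ρ →
    ∀ t : ℝ, |t| ≤ r → ∃ y ∈ S, dist y (x + t • τ) ≤ η * r

/-- `S` is approximated by the sets `T k` from inside: every point of `S` is uniformly close to
`T k` for large `k`. -/
def Near (S : Set ℂ) (T : ℕ → Set ℂ) : Prop :=
  ∀ ε : ℝ, 0 < ε → ∀ᶠ k in atTop, ∀ x ∈ S, ∃ y ∈ T k, dist x y < ε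

/-- ST1: a connected compact set which is close to the diameter of a ball and leaves the ball is
nearly as long as the diameter inside the ball. -/
def S_Local : Prop :=
  ∀ θ : ℝ, 0 < θ → θ < 1 → ∃ η : ℝ, 0 < η ∧ ∀ S : Set ℂ, IsCompact S → IsPreconnected S →
    ∀ (x τ : ℂ) (r : ℝ), 0 < r → ‖τ‖ = 1 → (∃ y ∈ S, r < dist y x) →
    (∀ t : ℝ, |t| ≤ r → ∃ z ∈ S, dist z (x + t • τ) ≤ η * r) →
    ENNReal.ofReal (θ * (2 * r)) ≤ μH[1] (S ∩ closedBall x r)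

/-- ST2: a covering theorem. -/
def S_Cover : Prop :=
  ∀ (A U : Set ℂ) (ν : ℕ → Measure ℂ) (θ : ℝ) (M : ℝ≥0∞), 0 < θ → IsOpen U → A ⊆ U →
    (∃ᶠ k in atTop, ν k U ≤ M) →
    (∀ x ∈ A, ∀ ρ : ℝ, 0 < ρ → ∃ r : ℝ, 0 < r ∧ r < ρ ∧
      ∀ᶠ k in atTop, ENNReal.ofReal (θ * (2 * r)) ≤ ν k (closedBall x r)) →
    ENNReal.ofReal θ * μH[1] A ≤ M

/-- ST3: almost every point of a Lipschitz path in `S` is a tangent point of `S`. -/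
def S_Path : Prop :=
  ∀ (S : Set ℂ) (γ : ℝ → ℂ) (L : ℝ), (∀ t ∈ Icc (0 : ℝ) 1, γ t ∈ S) →
    (∀ s ∈ Icc (0 : ℝ) 1, ∀ t ∈ Icc (0 : ℝ) 1, dist (γ s) (γ t) ≤ L * |s - t|) →
    μH[1] {x | x ∈ γ '' Icc (0 : ℝ) 1 ∧ ¬ Tan S x} = 0

/-- ST4: almost every point of a continuum of finite length is a tangent point. -/
def S_Tan : Prop :=
  ∀ S : Set ℂ, IsCompact S → IsPreconnected S → μH[1] S ≠ ⊤ → S.Nontrivial →
    μH[1] {x | x ∈ S ∧ ¬ Tan S x} = 0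

/-- ST5: Gołąb's theorem, local form. -/
def S_Golab : Prop :=
  ∀ (S : Set ℂ) (T : ℕ → Set ℂ) (M : ℝ≥0∞), M ≠ ⊤ → IsCompact S → IsPreconnected S →
    (∀ k, IsCompact (T k) ∧ IsPreconnected (T k) ∧ μH[1] (T k) ≤ M) → Near S T →
    ∀ U : Set ℂ, IsOpen U → μH[1] (S ∩ U) ≤ liminf (fun k => μH[1] (T k ∩ U)) atTop

/-- ST6: selection theorem for connected compact sets. -/
def S_Blaschke : Prop :=
  ∀ (K : Set ℂ) (T : ℕ → Set ℂ), IsCompact K →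
    (∀ k, IsCompact (T k) ∧ IsConnected (T k) ∧ T k ⊆ K) →
    ∃ (φ : ℕ → ℕ) (S : Set ℂ), StrictMono φ ∧ IsCompact S ∧ IsConnected S ∧ S ⊆ K ∧
      Near S (fun k => T (φ k)) ∧
      ∀ ε : ℝ, 0 < ε → ∀ᶠ k in atTop, ∀ y ∈ T (φ k), ∃ x ∈ S, dist x y < ε

/-! ## Truncation of near minimisers -/

/-- The truncation of `u` along the levels in `{ρ = 1}`. -/
noncomputable def trunc (ρ : ℝ → ℝ) (u : ℂ → ℝ) : ℂ → ℝ :=
  fun z => u z - ∫ s in (0 : ℝ)..(u z), ρ s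

/-- ST7: flux inequality. -/
def S_Flux : Prop :=
  ∀ (Ω : Set ℂ) (m : ℝ) (μ : Measure ℂ) (u : ℂ → ℝ) (ρ : ℝ → ℝ), IsOpen Ω →
    Bornology.IsBounded Ω → 0 < m → IsFiniteMeasure μ → IsTest Ω u → (∫ z in Ω, u z ^ 2) = 1 →
    ContDiff ℝ ∞ ρ → HasCompactSupport ρ → (∀ s, 0 ≤ ρ s) → (∀ s, ρ s ≤ 1) →
    IsTest Ω (trunc ρ u) ∧
    (∀ z, ‖fderiv ℝ (trunc ρ u) z‖ = (1 - ρ (u z)) * ‖fderiv ℝ u z‖) ∧
    energy Ω m μ (trunc ρ u) + m * (∫ z, ρ (u z) * ‖fderiv ℝ u z‖ ^ 2 ∂μ) ≤ energy Ω m μ u ∧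
    1 - (∫ s, ρ s) * (1 + (volume Ω).toReal) ≤ (∫ z in Ω, (trunc ρ u z) ^ 2) ∧
    m * (∫ z, ρ (u z) * ‖fderiv ℝ u z‖ ^ 2 ∂μ) ≤
      (energy Ω m μ u - lam Ω m μ) + lam Ω m μ * ((∫ s, ρ s) * (1 + (volume Ω).toReal))

/-- ST8: one-dimensional area inequality. -/
def S_Area : Prop :=
  ∀ (u : ℂ → ℝ) (G : Set ℂ), ContDiff ℝ ∞ u → HasCompactSupport u → MeasurableSet G →
    μH[1] G ≠ ⊤ → volume (u '' G) ≤ ∫⁻ z in G, ENNReal.ofReal ‖fderiv ℝ u z‖ ∂μH[1]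

/-- ST9: near minimisers with small gradient on the stiffener. -/
def S_Key : Prop :=
  ∀ (Ω S : Set ℂ) (m Λ t ε : ℝ), IsOpen Ω → Bornology.IsBounded Ω → Ω.Nonempty → 0 < m →
    IsCompact S → μH[1] S ≠ ⊤ → lam Ω m (HS S) ≤ Λ →
    Λ * (1 + (volume Ω).toReal) < m * t → 0 < ε →
    ∃ w : ℂ → ℝ, IsTest Ω w ∧ (∫ z in Ω, w z ^ 2) = 1 ∧
      energy Ω m (HS S) w ≤ lam Ω m (HS S) + ε ∧ ∀ x ∈ S, ‖fderiv ℝ w x‖ ≤ t

/-! ## The rectangle -/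

/-- ST10: one-dimensional inequality (Picone). -/
def S_Picone : Prop :=
  ∀ (g : ℝ → ℝ) (ε κ l : ℝ), 0 < ε → ε < l → 0 < κ → κ * l < Real.pi → ContDiff ℝ 1 g →
    (∀ x ≤ ε, g x = 0) →
    κ ^ 2 * (∫ x in (0 : ℝ)..l, g x ^ 2) + g l ^ 2 * (κ * Real.cos (κ * l) / Real.sin (κ * l)) ≤
      ∫ x in (0 : ℝ)..l, deriv g x ^ 2

/-- ST11: lower bound for the rectangle stiffened by the segment. -/
def S_Lower : Prop :=
  ∀ m : ℝ, 1 ≤ m → 5 * Real.pi ^ 2 / 4 ≤ lam rect m (HS seg)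

/-- ST12: one-dimensional test functions. -/
def S_OneD : Prop :=
  ∀ l ε : ℝ, 0 < l → 0 < ε → ∃ g : ℝ → ℝ, ContDiff ℝ ∞ g ∧ HasCompactSupport g ∧
    tsupport g ⊆ Ioo 0 l ∧ 0 < (∫ x, g x ^ 2) ∧
    (∫ x, deriv g x ^ 2) ≤ (10 / l ^ 2 + ε) * ∫ x, g x ^ 2

/-- ST13: upper bound for the rectangle without stiffener. -/
def S_Upper : Prop :=
  ∀ m : ℝ, lam rect m 0 ≤ 23 / 2

/-- ST14: uniform upper bound for short connected stiffeners. -/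
def S_Bound : Prop :=
  ∃ Λ : ℝ, ∀ (m : ℝ) (S : Set ℂ), 0 < m → IsCompact S → IsPreconnected S → μH[1] S ≤ 1 →
    lam rect m (HS S) ≤ Λ

end Pool.Agent.H234.ST
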