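import Pool.Agent.H234.ST.Defs

/-!
# Project ST (helper234), task ST8: one-dimensional area inequality
-/

set_option autoImplicit false

open MeasureTheory Set Metric Filter Topology
open scoped ContDiff ENNReal NNReal
open Pool.Agent.H234.ST

namespace Pool.Agent.H233.ST

theorem area : S_Area := by
  intro u G hu hc hG hfin
  have hDc : Continuous (fderiv ℝ u) := hu.continuous_fderiv (by simp)
  have hDs : HasCompactSupport (fderiv ℝ u) := hc.fderiv ℝ
  have hUC : UniformContinuous (fderiv ℝ u) := hDs.uniformContinuous_of_continuous hDc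
  have hdiff : Differentiable ℝ u := hu.differentiable (by simp)
  -- the main inequality with an error
  have main : ∀ ε : ℝ, 0 < ε → volume (u '' G) ≤
      (∫⁻ z in G, ENNReal.ofReal ‖fderiv ℝ u z‖ ∂μH[1]) + ENNReal.ofReal (2 * ε) * μH[1] G := by
    intro ε hε
    obtain ⟨δ, hδ, hδD⟩ := Metric.uniformContinuous_iff.1 hUC ε hε
    obtain ⟨c, hcd⟩ := TopologicalSpace.exists_dense_seq ℂ
    obtain ⟨Q, hQdef⟩ : ∃ Q : ℕ → Set ℂ, Q = disjointed (fun i => ball (c i) (δ / 2)) := ⟨_, rfl⟩
    have hQm : ∀ i, MeasurableSet (Q i) := by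
      intro i
      rw [hQdef]
      exact MeasurableSet.disjointed (fun i => measurableSet_ball) i
    have hQd : Pairwise (Function.onFun Disjoint Q) := by
      rw [hQdef]
      exact disjoint_disjointed _
    have hQs : ∀ i, Q i ⊆ ball (c i) (δ / 2) := by
      intro i
      rw [hQdef]
      exact disjointed_subset _ i
    have hQU : ⋃ i, Q i = univ := by
      rw [hQdef, iUnion_disjointed, eq_univ_iff_forall]
      intro z
      obtain ⟨i, hi⟩ := hcd.exists_dist_lt z (half_pos hδ)
      exact mem_iUnion.2 ⟨i, mem_ball.2 hi⟩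
    have hGU : G = ⋃ i, G ∩ Q i := by
      rw [← inter_iUnion, hQU, inter_univ]
    have hpiece : ∀ i, volume (u '' (G ∩ Q i)) ≤
        ∫⁻ z in G ∩ Q i, (ENNReal.ofReal ‖fderiv ℝ u z‖ + ENNReal.ofReal (2 * ε)) ∂μH[1] := by
      intro i
      rcases (G ∩ Q i).eq_empty_or_nonempty with h | ⟨x, hx⟩
      · rw [h]
        simp
      obtain ⟨K, hK⟩ : ∃ K : ℝ≥0, K = ⟨‖fderiv ℝ u x‖ + ε, by positivity⟩ := ⟨_, rfl⟩
      have hxb := hQs i hx.2
      have hlip : LipschitzOnWith K u (ball (c i) (δ / 2)) := by
        apply (convex_ball _ _).lipschitzOnWith_of_nnnorm_fderiv_le (𝕜 := ℝ)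
        · intro y _
          exact hdiff y
        · intro y hy
          rw [← NNReal.coe_le_coe, coe_nnnorm, hK]
          have h1 : dist y x < δ := by
            have h2 := dist_triangle_right y x (c i)
            rw [mem_ball] at hy hxb
            linarith
          have h2 := hδD h1
          rw [dist_eq_norm] at h2
          have h3 := norm_sub_norm_le (fderiv ℝ u y) (fderiv ℝ u x)
          show ‖fderiv ℝ u y‖ ≤ ‖fderiv ℝ u x‖ + ε
          linarith
      have h1 := (hlip.mono (inter_subset_right.trans (hQs i) :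
        G ∩ Q i ⊆ ball (c i) (δ / 2))).hausdorffMeasure_image_le zero_le_one
      rw [hausdorffMeasure_real, ENNReal.rpow_one] at h1
      refine h1.trans ?_
      rw [← setLIntegral_const]
      apply setLIntegral_mono' (hG.inter (hQm i))
      intro y hy
      have hyb := hQs i hy.2
      have h2 : dist x y < δ := by
        have h3 := dist_triangle_right x y (c i)
        rw [mem_ball] at hyb hxb
        linarith
      have h3 := hδD h2
      rw [dist_eq_norm] at h3
      have h4 := norm_sub_norm_le (fderiv ℝ u x) (fderiv ℝ u y)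
      rw [← ENNReal.ofReal_add (norm_nonneg _) (by positivity), ← ENNReal.ofReal_coe_nnreal]
      apply ENNReal.ofReal_le_ofReal
      rw [hK]
      show ‖fderiv ℝ u x‖ + ε ≤ ‖fderiv ℝ u y‖ + 2 * ε
      linarith
    have hsum : volume (u '' G) ≤ ∫⁻ z in G,
        (ENNReal.ofReal ‖fderiv ℝ u z‖ + ENNReal.ofReal (2 * ε)) ∂μH[1] := by
      calc volume (u '' G) = volume (⋃ i, u '' (G ∩ Q i)) := by
            rw [← image_iUnion, ← hGU]
        _ ≤ ∑' i, volume (u '' (G ∩ Q i)) := measure_iUnion_le _
        _ ≤ ∑' i, ∫⁻ z in G ∩ Q i,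
            (ENNReal.ofReal ‖fderiv ℝ u z‖ + ENNReal.ofReal (2 * ε)) ∂μH[1] :=
            ENNReal.tsum_le_tsum hpiece
        _ = ∫⁻ z in ⋃ i, G ∩ Q i,
            (ENNReal.ofReal ‖fderiv ℝ u z‖ + ENNReal.ofReal (2 * ε)) ∂μH[1] := by
            rw [lintegral_iUnion (fun i => hG.inter (hQm i))]
            intro i j hij
            exact (hQd hij).mono inter_subset_right inter_subset_right
        _ = _ := by rw [← hGU]
    refine hsum.trans (le_of_eq ?_)
    rw [lintegral_add_right _ measurable_const, setLIntegral_const]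
  -- limit
  apply ENNReal.le_of_forall_pos_le_add
  intro η hη _
  obtain ⟨m, hm⟩ : ∃ m : ℝ, m = (μH[1] G).toReal := ⟨_, rfl⟩
  have hm0 : 0 ≤ m := by rw [hm]; exact ENNReal.toReal_nonneg
  have hη' : (0 : ℝ) < η := by exact_mod_cast hη
  have h1 := main (η / (2 * (m + 1))) (by positivity)
  refine h1.trans (add_le_add le_rfl ?_)
  rw [← ENNReal.ofReal_toReal hfin, ← hm, ← ENNReal.ofReal_mul (by positivity),
    ← ENNReal.ofReal_coe_nnreal]
  apply ENNReal.ofReal_le_ofReal
  have h2 : 2 * (η / (2 * (m + 1))) * m = η * (m / (m + 1)) := by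
    field_simp
  rw [h2]
  apply mul_le_of_le_one_right hη'.le
  rw [div_le_one (by positivity)]
  linarith

end Pool.Agent.H233.ST
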