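import Pool.Agent.H234.ST.Defs
import Pool.Agent.H234.ST.Path

set_option autoImplicit false

open MeasureTheory Set Metric Filter Topology
open scoped ContDiff ENNReal

namespace Pool.Agent.H234.ST

lemma energy_nonneg {Ω : Set ℂ} {m : ℝ} (hm : 0 ≤ m) (μ : Measure ℂ) (u : ℂ → ℝ) :
    0 ≤ energy Ω m μ u := by
  unfold energy
  have h1 : 0 ≤ ∫ z in Ω, ‖fderiv ℝ u z‖ ^ 2 := integral_nonneg fun _ => by positivity
  have h2 : 0 ≤ ∫ z, ‖fderiv ℝ u z‖ ^ 2 ∂μ := integral_nonneg fun _ => by positivity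
  positivity

lemma lam_bdd {Ω : Set ℂ} {m : ℝ} (hm : 0 ≤ m) (μ : Measure ℂ) :
    BddBelow {q : ℝ | ∃ u : ℂ → ℝ, IsTest Ω u ∧ u ≠ 0 ∧
      q = energy Ω m μ u / ∫ z in Ω, u z ^ 2} := by
  refine ⟨0, ?_⟩
  rintro q ⟨u, -, -, rfl⟩
  exact div_nonneg (energy_nonneg hm μ u) (integral_nonneg fun _ => by positivity)

lemma lam_nonneg {Ω : Set ℂ} {m : ℝ} (hm : 0 ≤ m) (μ : Measure ℂ) : 0 ≤ lam Ω m μ := by
  apply Real.sInf_nonneg
  rintro q ⟨u, -, -, rfl⟩
  exact div_nonneg (energy_nonneg hm μ u) (integral_nonneg fun _ => by positivity)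

lemma lam_le {Ω : Set ℂ} {m : ℝ} (hm : 0 ≤ m) (μ : Measure ℂ) {w : ℂ → ℝ} (hw : IsTest Ω w)
    (h1 : (∫ z in Ω, w z ^ 2) = 1) : lam Ω m μ ≤ energy Ω m μ w := by
  have h0 : w ≠ 0 := by
    rintro rfl
    simp at h1
  have := csInf_le (lam_bdd hm μ) ⟨w, hw, h0, rfl⟩
  rw [h1, div_one] at this
  exact this

lemma grad_cont {Ω : Set ℂ} {w : ℂ → ℝ} (hw : IsTest Ω w) :
    Continuous fun z => ‖fderiv ℝ w z‖ ^ 2 :=
  (((hw.1.continuous_fderiv (by simp)).norm).pow 2)

lemma grad_supp {Ω : Set ℂ} {w : ℂ → ℝ} (hw : IsTest Ω w) :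
    HasCompactSupport fun z => ‖fderiv ℝ w z‖ ^ 2 := by
  have h : HasCompactSupport (fderiv ℝ w) := hw.2.1.fderiv (𝕜 := ℝ)
  refine h.comp_left (g := fun l : ℂ →L[ℝ] ℝ => ‖l‖ ^ 2) (by simp)

lemma grad_int {Ω : Set ℂ} {w : ℂ → ℝ} (hw : IsTest Ω w) (μ : Measure ℂ)
    [IsFiniteMeasureOnCompacts μ] : Integrable (fun z => ‖fderiv ℝ w z‖ ^ 2) μ :=
  (grad_cont hw).integrable_of_hasCompactSupport (grad_supp hw)

lemma HS_fin {S : Set ℂ} (h : μH[1] S ≠ ⊤) : IsFiniteMeasure (HS S) :=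
  ⟨by rw [HS, Measure.restrict_apply_univ]; exact lt_top_iff_ne_top.mpr h⟩

lemma HS_univ (S : Set ℂ) : HS S univ = μH[1] S := by
  rw [HS, Measure.restrict_apply_univ]

/-- Competitors. -/
structure Comp (Ω S : Set ℂ) : Prop where
  compact : IsCompact S
  conn : IsConnected S
  sub : S ⊆ closure Ω
  len : μH[1] S ≤ 1

lemma Comp.ne_top {Ω S : Set ℂ} (h : Comp Ω S) : μH[1] S ≠ ⊤ :=
  (h.len.trans_lt ENNReal.one_lt_top).ne

lemma exists_t {Λ V m c : ℝ} (hΛ : 0 ≤ Λ * V) (hm : 0 < m) (hc : (Λ * V) ^ 2 < c * m) :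
    ∃ t, Λ * V < m * t ∧ m * t ^ 2 < c ∧ 0 < t := by
  have hc0 : 0 < c := by
    have : 0 < c * m := lt_of_le_of_lt (sq_nonneg _) hc
    exact pos_of_mul_pos_left this hm.le
  set s := √(c / m) with hs
  have hs2 : m * s ^ 2 = c := by
    rw [hs, Real.sq_sqrt (by positivity)]
    field_simp
  have hs0 : 0 < s := Real.sqrt_pos.mpr (by positivity)
  have h1 : Λ * V < m * s := by
    have h2 : (Λ * V) ^ 2 < (m * s) ^ 2 := by
      calc (Λ * V) ^ 2 < c * m := hc
        _ = (m * s) ^ 2 := by rw [← hs2]; ring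
    exact lt_of_pow_lt_pow_left₀ 2 (by positivity) h2
  refine ⟨(Λ * V / m + s) / 2, ?_, ?_, ?_⟩
  · have : m * ((Λ * V / m + s) / 2) = (Λ * V + m * s) / 2 := by field_simp
    rw [this]; linarith
  · have h3 : Λ * V / m < s := by
      rw [div_lt_iff₀ hm]; linarith
    have h4 : 0 ≤ Λ * V / m := by positivity
    have h5 : ((Λ * V / m + s) / 2) ^ 2 < s ^ 2 := by
      apply pow_lt_pow_left₀ _ (by positivity) two_ne_zero
      linarith
    calc m * ((Λ * V / m + s) / 2) ^ 2 < m * s ^ 2 := by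
          exact mul_lt_mul_of_pos_left h5 hm
      _ = c := hs2
  · positivity

/-- The weighted form of Gołąb's theorem. -/
lemma weighted (h5 : S_Golab) {S : Set ℂ} {T : ℕ → Set ℂ} (hS : IsCompact S)
    (hSc : IsPreconnected S) (hT : ∀ k, IsCompact (T k) ∧ IsPreconnected (T k) ∧ μH[1] (T k) ≤ 1)
    (hn : Near S T) {f : ℂ → ℝ} (hf : Continuous f) (h0 : 0 ≤ f) :
    ∫⁻ z, ENNReal.ofReal (f z) ∂(HS S) ≤
      liminf (fun k => ∫⁻ z, ENNReal.ofReal (f z) ∂(HS (T k))) atTop := by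
  apply lintegral_le_liminf_lintegral_of_forall_isOpen_measure_le_liminf_measure hf h0
  intro G hG
  have := h5 S T 1 ENNReal.one_ne_top hS hSc hT hn G hG
  simp only [HS]
  rw [Measure.restrict_apply hG.measurableSet, inter_comm]
  refine this.trans (le_of_eq ?_)
  congr 1
  ext k
  rw [Measure.restrict_apply hG.measurableSet, inter_comm]

theorem exists_opt (h5 : S_Golab) (h6 : S_Blaschke) (h9 : S_Key) {Ω : Set ℂ} (hΩ : IsOpen Ω)
    (hb : Bornology.IsBounded Ω) (hne : Ω.Nonempty) {m Λ c : ℝ} (hm : 0 < m) (hΛ0 : 0 ≤ Λ)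
    (hΛ : ∀ S : Set ℂ, IsCompact S → IsPreconnected S → μH[1] S ≤ 1 → lam Ω m (HS S) ≤ Λ)
    (hc : (Λ * (1 + (volume Ω).toReal)) ^ 2 < c * m) :
    ∃ S, Comp Ω S ∧ ∀ S', Comp Ω S' →
      lam Ω m (HS S') - c * (μH[1] S').toReal ≤ lam Ω m (HS S) - c * (μH[1] S).toReal := by
  have hc0 : 0 < c := by
    have : 0 < c * m := lt_of_le_of_lt (sq_nonneg _) hc
    exact pos_of_mul_pos_left this hm.le
  set Ψ : Set ℂ → ℝ := fun S => lam Ω m (HS S) - c * (μH[1] S).toReal with hΨ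
  have hΨle : ∀ S, Comp Ω S → Ψ S ≤ Λ := by
    intro S hS
    have h1 := hΛ S hS.compact hS.conn.isPreconnected hS.len
    have h2 : 0 ≤ c * (μH[1] S).toReal := by positivity
    simp only [hΨ]
    linarith
  have hKne : (Ψ '' {S | Comp Ω S}).Nonempty := by
    obtain ⟨x, hx⟩ := hne
    refine ⟨Ψ {x}, {x}, ⟨isCompact_singleton, isConnected_singleton, ?_, ?_⟩, rfl⟩
    · exact singleton_subset_iff.mpr (subset_closure hx)
    · rw [Lib.noAtom]; exact zero_le_one
  have hbdd : BddAbove (Ψ '' {S | Comp Ω S}) := by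
    refine ⟨Λ, ?_⟩
    rintro _ ⟨S, hS, rfl⟩
    exact hΨle S hS
  obtain ⟨u, -, hu, huS⟩ := exists_seq_tendsto_sSup hKne hbdd
  choose T hT hTu using huS
  set s := sSup (Ψ '' {S | Comp Ω S}) with hs
  obtain ⟨φ, S, hφ, hSc, hSconn, hSsub, hnear, hnear'⟩ := h6 (closure Ω) T hb.isCompact_closure
    (fun k => ⟨(hT k).compact, (hT k).conn, (hT k).sub⟩)
  have hT' : ∀ k, IsCompact (T (φ k)) ∧ IsPreconnected (T (φ k)) ∧ μH[1] (T (φ k)) ≤ 1 :=
    fun k => ⟨(hT _).compact, (hT _).conn.isPreconnected, (hT _).len⟩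
  have hlen : μH[1] S ≤ 1 := by
    have h := h5 S (fun k => T (φ k)) 1 ENNReal.one_ne_top hSc hSconn.isPreconnected hT' hnear
      univ isOpen_univ
    simp only [inter_univ] at h
    refine h.trans ?_
    apply liminf_le_of_frequently_le'
    exact Frequently.of_forall fun k => (hT' k).2.2
  have hcomp : Comp Ω S := ⟨hSc, hSconn, hSsub, hlen⟩
  refine ⟨S, hcomp, ?_⟩
  have hlim : Tendsto (fun k => Ψ (T (φ k))) atTop (𝓝 s) := by
    have h1 : (fun k => Ψ (T k)) = u := by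
      ext k
      exact hTu k
    have h2 : Tendsto (fun k => Ψ (T k)) atTop (𝓝 s) := by rw [h1]; exact hu
    exact h2.comp hφ.tendsto_atTop
  suffices hmain : s ≤ Ψ S by
    intro S' hS'
    exact (le_csSup hbdd ⟨S', hS', rfl⟩).trans hmain
  have hV : (0 : ℝ) ≤ 1 + (volume Ω).toReal := by positivity
  obtain ⟨t, ht1, ht2, ht0⟩ := exists_t (mul_nonneg hΛ0 hV) hm hc
  have : IsFiniteMeasure (HS S) := HS_fin hcomp.ne_top
  apply le_of_forall_pos_le_add
  intro ε hε
  obtain ⟨w, hw, hw1, hwe, hwS⟩ := h9 Ω S m Λ t ε hΩ hb hne hm hSc hcomp.ne_top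
    (hΛ S hSc hSconn.isPreconnected hlen) ht1 hε
  set f : ℂ → ℝ := fun z => c - m * ‖fderiv ℝ w z‖ ^ 2 with hf
  have hfc : Continuous f := continuous_const.sub (continuous_const.mul (grad_cont hw))
  have hfS : ∀ z ∈ S, 0 < f z := by
    intro z hz
    have h1 := hwS z hz
    have h2 : ‖fderiv ℝ w z‖ ^ 2 ≤ t ^ 2 := pow_le_pow_left₀ (norm_nonneg _) h1 2
    have h3 : m * ‖fderiv ℝ w z‖ ^ 2 ≤ m * t ^ 2 := mul_le_mul_of_nonneg_left h2 hm.le
    simp only [hf]
    linarith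
  have hopen : IsOpen {z | 0 < f z} := isOpen_lt continuous_const hfc
  obtain ⟨δ, hδ, hδS⟩ := hSc.exists_thickening_subset_open hopen hfS
  have hTf : ∀ᶠ k in atTop, ∀ z ∈ T (φ k), 0 < f z := by
    filter_upwards [hnear' δ hδ] with k hk z hz
    obtain ⟨x, hx, hxz⟩ := hk z hz
    apply hδS
    rw [mem_thickening_iff]
    exact ⟨x, hx, by rw [dist_comm]; exact hxz⟩
  set g : ℂ → ℝ := fun z => max (f z) 0 with hg
  have hgc : Continuous g := hfc.max continuous_const
  have hg0 : 0 ≤ g := fun z => le_max_right _ _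
  have hW := weighted h5 hSc hSconn.isPreconnected hT' hnear hgc hg0
  -- the integrals of `f`
  have hfint : ∀ (μ : Measure ℂ) [IsFiniteMeasure μ], Integrable f μ := by
    intro μ _
    exact (integrable_const c).sub ((grad_int hw μ).const_mul m)
  have hval : ∀ (A : Set ℂ), IsCompact A → μH[1] A ≠ ⊤ → (∀ z ∈ A, 0 < f z) →
      ∫⁻ z, ENNReal.ofReal (g z) ∂(HS A) = ENNReal.ofReal (∫ z, f z ∂(HS A)) := by
    intro A hA hAt hAf
    have : IsFiniteMeasure (HS A) := HS_fin hAt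
    have h1 : ∀ᵐ z ∂(HS A), 0 < f z := by
      rw [HS, ae_restrict_iff' hA.measurableSet]
      exact Eventually.of_forall hAf
    rw [ofReal_integral_eq_lintegral_ofReal (hfint _) (h1.mono fun z hz => hz.le)]
    apply lintegral_congr_ae
    filter_upwards [h1] with z hz
    simp only [hg]
    rw [max_eq_left hz.le]
  have hIval : ∀ (A : Set ℂ), μH[1] A ≠ ⊤ →
      (∫ z, f z ∂(HS A)) = c * (μH[1] A).toReal - m * ∫ z, ‖fderiv ℝ w z‖ ^ 2 ∂(HS A) := by
    intro A hAt
    have : IsFiniteMeasure (HS A) := HS_fin hAt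
    simp only [hf]
    rw [integral_sub (integrable_const c) ((grad_int hw _).const_mul m), integral_const,
      integral_const_mul, smul_eq_mul, mul_comm]
    congr 2
    rw [measureReal_def, HS_univ]
  set D : ℝ := ∫ z in Ω, ‖fderiv ℝ w z‖ ^ 2 with hD
  have hup : ∀ A, Comp Ω A → (∫ z, f z ∂(HS A)) ≤ D - Ψ A := by
    intro A hA
    have h1 := lam_le hm.le (HS A) hw hw1
    rw [hIval A hA.ne_top]
    simp only [hΨ, energy] at h1 ⊢
    linarith
  have h3 : ENNReal.ofReal (∫ z, f z ∂(HS S)) ≤ ENNReal.ofReal (D - s) := by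
    rw [← hval S hSc hcomp.ne_top hfS]
    refine hW.trans ?_
    have h4 : Tendsto (fun k => ENNReal.ofReal (D - Ψ (T (φ k)))) atTop
        (𝓝 (ENNReal.ofReal (D - s))) :=
      (ENNReal.continuous_ofReal.tendsto _).comp (tendsto_const_nhds.sub hlim)
    rw [← h4.liminf_eq]
    have h8 : ∀ᶠ k in atTop, (∫⁻ z, ENNReal.ofReal (g z) ∂(HS (T (φ k)))) ≤
        ENNReal.ofReal (D - Ψ (T (φ k))) := by
      filter_upwards [hTf] with k hk
      rw [hval _ (hT' k).1 (hT (φ k)).ne_top hk]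
      exact ENNReal.ofReal_le_ofReal (hup _ (hT _))
    exact liminf_le_liminf h8
  have h5' : 0 ≤ D - s := by
    have h6 : ∀ᶠ k in atTop, 0 ≤ D - Ψ (T (φ k)) := by
      filter_upwards [hTf] with k hk
      refine le_trans ?_ (hup _ (hT _))
      apply integral_nonneg_of_ae
      rw [Filter.EventuallyLE, HS, ae_restrict_iff' (hT' k).1.measurableSet]
      exact Eventually.of_forall fun z hz => (hk z hz).le
    exact ge_of_tendsto (tendsto_const_nhds.sub hlim) h6
  have h7 : (∫ z, f z ∂(HS S)) ≤ D - s := (ENNReal.ofReal_le_ofReal_iff h5').mp h3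
  rw [hIval S hcomp.ne_top] at h7
  simp only [hΨ, energy] at hwe ⊢
  linarith

lemma support_HS {S : Set ℂ} (hS : IsCompact S) (hc : IsPreconnected S) (hpos : μH[1] S ≠ 0) :
    (HS S).support = S := by
  have hcl := hS.isClosed
  apply subset_antisymm
  · apply Measure.support_subset_of_isClosed hcl
    rw [mem_ae_iff, HS, Measure.restrict_apply hcl.measurableSet.compl]
    simp
  · intro x hx
    have hex : ∃ y ∈ S, y ≠ x := by
      by_contra hcon
      push Not at hcon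
      apply hpos
      have : S ⊆ {x} := fun y hy => hcon y hy
      exact measure_mono_null this (Lib.noAtom x)
    obtain ⟨y, hy, hyx⟩ := hex
    rw [Measure.mem_support_iff_forall]
    intro V hV
    obtain ⟨r, hr, hrV⟩ := Metric.mem_nhds_iff.mp hV
    set q := min r (dist x y) with hq
    have hd : 0 < dist x y := dist_pos.mpr (Ne.symm hyx)
    have hq0 : 0 < q := lt_min hr hd
    have h1 := Lib.H_ball hc hx hy (r := q) (min_le_right _ _)
    have h2 : 0 < ENNReal.ofReal q := ENNReal.ofReal_pos.mpr hq0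
    refine lt_of_lt_of_le (h2.trans_le h1) ?_
    have h3 : (S ∩ ball x q) ⊆ V ∩ S := by
      rintro z ⟨hz1, hz2⟩
      exact ⟨hrV (ball_subset_ball (min_le_left _ _) hz2), hz1⟩
    calc μH[1] (S ∩ ball x q) ≤ μH[1] (V ∩ S) := measure_mono h3
      _ ≤ HS S V := Measure.le_restrict_apply _ _

/-- Comparison of an admissible measure with `H¹` on its support. -/
lemma lam_adm (h9 : S_Key) {Ω : Set ℂ} (hΩ : IsOpen Ω) (hb : Bornology.IsBounded Ω)
    (hne : Ω.Nonempty) {m Λ c L : ℝ} (hm : 0 < m) (hΛ0 : 0 ≤ Λ) (hL : L ≤ 1)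
    (hΛ : ∀ S : Set ℂ, IsCompact S → IsPreconnected S → μH[1] S ≤ 1 → lam Ω m (HS S) ≤ Λ)
    (hc : (Λ * (1 + (volume Ω).toReal)) ^ 2 < c * m) {ν : Measure ℂ} (hν : Adm Ω L ν) :
    IsCompact ν.support ∧ μH[1] ν.support ≤ 1 ∧ ν.support ⊆ closure Ω ∧
    lam Ω m ν ≤ lam Ω m (HS ν.support) +
      c * ((ν univ).toReal - (μH[1] ν.support).toReal) := by
  have hsub : ν.support ⊆ closure Ω := by
    apply Measure.support_subset_of_isClosed isClosed_closure
    rw [mem_ae_iff]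
    exact hν.carried
  have hcl : IsClosed ν.support := Measure.isClosed_support
  have hcpt : IsCompact ν.support := hb.isCompact_closure.of_isClosed_subset hcl hsub
  have hlen0 : μH[1] ν.support ≤ ν univ := by
    rw [← HS_univ]
    exact hν.ge univ
  have hlen : μH[1] ν.support ≤ 1 := by
    refine hlen0.trans (hν.mass.trans ?_)
    rw [← ENNReal.ofReal_one]
    exact ENNReal.ofReal_le_ofReal hL
  have hνfin : IsFiniteMeasure ν := ⟨hν.mass.trans_lt ENNReal.ofReal_lt_top⟩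
  have hlt : μH[1] ν.support ≠ ⊤ := (hlen.trans_lt ENNReal.one_lt_top).ne
  have : IsFiniteMeasure (HS ν.support) := HS_fin hlt
  refine ⟨hcpt, hlen, hsub, ?_⟩
  have hV : (0 : ℝ) ≤ 1 + (volume Ω).toReal := by positivity
  obtain ⟨t, ht1, ht2, ht0⟩ := exists_t (mul_nonneg hΛ0 hV) hm hc
  apply le_of_forall_pos_le_add
  intro ε hε
  obtain ⟨w, hw, hw1, hwe, hwS⟩ := h9 Ω ν.support m Λ t ε hΩ hb hne hm hcpt hlt
    (hΛ _ hcpt hν.conn hlen) ht1 hε
  have h1 := lam_le hm.le ν hw hw1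
  set κ : Measure ℂ := ν - HS ν.support with hκ
  have hsum : κ + HS ν.support = ν := Measure.sub_add_cancel_of_le hν.ge
  have hκfin : IsFiniteMeasure κ := by
    refine ⟨lt_of_le_of_lt ?_ (measure_lt_top ν univ)⟩
    exact Measure.sub_le univ
  have hκnull : κ ν.supportᶜ = 0 := by
    refine le_antisymm ?_ bot_le
    calc κ ν.supportᶜ ≤ ν ν.supportᶜ := Measure.sub_le _
      _ = 0 := Measure.measure_compl_support
  have hκuniv : (κ univ).toReal = (ν univ).toReal - (μH[1] ν.support).toReal := by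
    have h2 : ν univ = κ univ + μH[1] ν.support := by
      conv_lhs => rw [← hsum]
      rw [Measure.add_apply, HS_univ]
    rw [h2, ENNReal.toReal_add (measure_ne_top κ _) hlt]
    ring
  have hIκ : (∫ z, ‖fderiv ℝ w z‖ ^ 2 ∂κ) ≤ t ^ 2 * (κ univ).toReal := by
    have h2 : ∀ᵐ z ∂κ, ‖fderiv ℝ w z‖ ^ 2 ≤ t ^ 2 := by
      rw [ae_iff]
      refine measure_mono_null ?_ hκnull
      intro z hz hzS
      exact hz (pow_le_pow_left₀ (norm_nonneg _) (hwS z hzS) 2)
    calc (∫ z, ‖fderiv ℝ w z‖ ^ 2 ∂κ) ≤ ∫ _, t ^ 2 ∂κ :=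
          integral_mono_ae (grad_int hw κ) (integrable_const _) h2
      _ = t ^ 2 * (κ univ).toReal := by
          rw [integral_const, smul_eq_mul, measureReal_def, mul_comm]
  have hIν : (∫ z, ‖fderiv ℝ w z‖ ^ 2 ∂ν) =
      (∫ z, ‖fderiv ℝ w z‖ ^ 2 ∂κ) + ∫ z, ‖fderiv ℝ w z‖ ^ 2 ∂(HS ν.support) := by
    conv_lhs => rw [← hsum]
    exact integral_add_measure (grad_int hw κ) (grad_int hw _)
  simp only [energy] at h1 hwe
  rw [hIν] at h1
  have h6 : 0 ≤ (κ univ).toReal := ENNReal.toReal_nonneg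
  have h7 : m * (∫ z, ‖fderiv ℝ w z‖ ^ 2 ∂κ) ≤ c * (κ univ).toReal := by
    calc m * (∫ z, ‖fderiv ℝ w z‖ ^ 2 ∂κ) ≤ m * (t ^ 2 * (κ univ).toReal) :=
          mul_le_mul_of_nonneg_left hIκ hm.le
      _ = (m * t ^ 2) * (κ univ).toReal := by ring
      _ ≤ _ := mul_le_mul_of_nonneg_right ht2.le h6
  rw [← hκuniv]
  linarith


/-! ## The rectangle -/

lemma rect_open : IsOpen rect := by
  have h1 : IsOpen {z : ℂ | 0 < z.re} := isOpen_lt continuous_const Complex.continuous_re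
  have h2 : IsOpen {z : ℂ | z.re < 3} := isOpen_lt Complex.continuous_re continuous_const
  have h3 : IsOpen {z : ℂ | 0 < z.im} := isOpen_lt continuous_const Complex.continuous_im
  have h4 : IsOpen {z : ℂ | z.im < 1} := isOpen_lt Complex.continuous_im continuous_const
  exact h1.inter (h2.inter (h3.inter h4))

lemma rect_bdd : Bornology.IsBounded rect := by
  rw [isBounded_iff_forall_norm_le]
  refine ⟨4, ?_⟩
  rintro z ⟨h1, h2, h3, h4⟩
  have := Complex.norm_le_abs_re_add_abs_im z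
  rw [abs_of_pos h1, abs_of_pos h3] at this
  linarith

lemma rect_ne : rect.Nonempty := ⟨⟨1, 1 / 2⟩, by norm_num [rect]⟩

/-- The isometry onto the line through `seg`. -/
noncomputable def segMap (y : ℝ) : ℂ := ⟨3 / 2, y⟩

lemma segMap_iso : Isometry segMap := by
  apply Isometry.of_dist_eq
  intro x y
  have h : segMap x - segMap y = ((x - y : ℝ) : ℂ) * Complex.I := by
    apply Complex.ext <;> simp [segMap]
  rw [dist_eq_norm, h, norm_mul, Complex.norm_I, mul_one, Complex.norm_real, Real.dist_eq,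
    Real.norm_eq_abs]

lemma seg_eq : seg = segMap '' Icc 0 1 := by
  ext z
  constructor
  · rintro ⟨h1, h2, h3⟩
    refine ⟨z.im, ⟨h2, h3⟩, ?_⟩
    apply Complex.ext <;> simp [segMap, h1]
  · rintro ⟨y, hy, rfl⟩
    exact ⟨rfl, hy.1, hy.2⟩

lemma seg_len : μH[1] seg = 1 := by
  rw [seg_eq, segMap_iso.hausdorffMeasure_image (Or.inl zero_le_one), hausdorffMeasure_real,
    Real.volume_Icc]
  norm_num

lemma seg_comp : Comp rect seg := by
  refine ⟨?_, ?_, ?_, seg_len.le⟩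
  · rw [seg_eq]
    exact isCompact_Icc.image segMap_iso.continuous
  · rw [seg_eq]
    exact (isConnected_Icc zero_le_one).image _ segMap_iso.continuous.continuousOn
  · rw [seg_eq]
    have h1 : segMap '' Ioo 0 1 ⊆ rect := by
      rintro _ ⟨y, hy, rfl⟩
      refine ⟨?_, ?_, hy.1, hy.2⟩ <;> norm_num [segMap]
    have h2 : Icc (0 : ℝ) 1 = closure (Ioo 0 1) := (closure_Ioo zero_ne_one).symm
    rw [h2]
    refine (image_closure_subset_closure_image segMap_iso.continuous).trans ?_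
    exact closure_mono h1

/-- A maximiser of the problem (P). -/
def IsMaximizer (Ω : Set ℂ) (m L : ℝ) (μ : Measure ℂ) : Prop :=
  Adm Ω L μ ∧ ∀ ν : Measure ℂ, Adm Ω L ν → lam Ω m ν ≤ lam Ω m μ

theorem main (h5 : S_Golab) (h6 : S_Blaschke) (h9 : S_Key) (h11 : S_Lower) (h13 : S_Upper)
    (h14 : S_Bound) :
    ∃ m₀ : ℝ, 0 < m₀ ∧ ∀ m : ℝ, m₀ ≤ m → ∃ L : ℝ, 0 < L ∧ L ≤ 1 ∧
      (∃ μ : Measure ℂ, IsMaximizer rect m L μ) ∧
      ∀ μ : Measure ℂ, IsMaximizer rect m L μ → μ.support.Nonempty ∧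
        μH[1] μ.support = ENNReal.ofReal L ∧ μ = (μH[1] : Measure ℂ).restrict μ.support := by
  obtain ⟨Λ', hΛ'⟩ := h14
  set Λ := max Λ' 0 with hΛdef
  have hΛ0 : 0 ≤ Λ := le_max_right _ _
  set V : ℝ := 1 + (volume rect).toReal with hV
  refine ⟨max 1 (4 * (Λ * V) ^ 2 + 1), by positivity, ?_⟩
  intro m hm
  have hm1 : 1 ≤ m := (le_max_left _ _).trans hm
  have hm2 : 4 * (Λ * V) ^ 2 + 1 ≤ m := (le_max_right _ _).trans hm
  have hm0 : 0 < m := by linarith
  have hΛ : ∀ S : Set ℂ, IsCompact S → IsPreconnected S → μH[1] S ≤ 1 →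
      lam rect m (HS S) ≤ Λ :=
    fun S h1 h2 h3 => (hΛ' m S hm0 h1 h2 h3).trans (le_max_left _ _)
  have hc : (Λ * (1 + (volume rect).toReal)) ^ 2 < (1 / 2) * m := by
    rw [← hV]; nlinarith [sq_nonneg (Λ * V)]
  have hc' : (Λ * (1 + (volume rect).toReal)) ^ 2 < (1 / 4) * m := by
    rw [← hV]; linarith
  obtain ⟨S, hS, hmax⟩ := exists_opt h5 h6 h9 rect_open rect_bdd rect_ne hm0 hΛ0 hΛ hc
  have hseg := hmax seg seg_comp
  have hlow := h11 m hm1
  have hup := h13 m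
  have hpi : (23 : ℝ) / 2 + 1 / 2 < 5 * Real.pi ^ 2 / 4 := by
    have := Real.pi_gt_d2
    nlinarith
  have hsegl : (μH[1] seg).toReal = 1 := by rw [seg_len]; simp
  rw [hsegl] at hseg
  have hbig : (23 : ℝ) / 2 < lam rect m (HS S) - 1 / 2 * (μH[1] S).toReal := by linarith
  have hpos : μH[1] S ≠ 0 := by
    intro h0
    have h1 : HS S = 0 := by
      rw [HS, Measure.restrict_eq_zero]; exact h0
    rw [h1, h0] at hbig
    simp only [ENNReal.toReal_zero, mul_zero, sub_zero] at hbig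
    linarith
  set L : ℝ := (μH[1] S).toReal with hL
  have hLof : ENNReal.ofReal L = μH[1] S := ENNReal.ofReal_toReal hS.ne_top
  have hL0 : 0 < L := ENNReal.toReal_pos hpos hS.ne_top
  have hL1 : L ≤ 1 := by
    have := ENNReal.toReal_mono ENNReal.one_ne_top hS.len
    simpa using this
  have hsupp : (HS S).support = S := support_HS hS.compact hS.conn.isPreconnected hpos
  have hadm : Adm rect L (HS S) := by
    refine ⟨?_, ?_, ?_, ?_⟩
    · rw [HS, Measure.restrict_apply isClosed_closure.measurableSet.compl]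
      have : (closure rect)ᶜ ∩ S = ∅ := by
        rw [← disjoint_iff_inter_eq_empty]
        exact disjoint_compl_left.mono_right hS.sub
      rw [this, measure_empty]
    · rw [HS_univ, hLof]
    · rw [hsupp]; exact hS.conn.isPreconnected
    · rw [hsupp]
  have hkey : ∀ ν : Measure ℂ, Adm rect L ν →
      (ν.support = ∅ ∧ lam rect m ν < lam rect m (HS S)) ∨
      (ν.support.Nonempty ∧
        lam rect m ν + 1 / 4 * (L - (μH[1] ν.support).toReal) ≤ lam rect m (HS S)) := by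
    intro ν hν
    obtain ⟨g1, g2, g3, g4⟩ := lam_adm h9 rect_open rect_bdd rect_ne hm0 hΛ0 hL1 hΛ hc' hν
    have hmass : (ν univ).toReal ≤ L := by
      have := ENNReal.toReal_mono ENNReal.ofReal_ne_top hν.mass
      rwa [ENNReal.toReal_ofReal hL0.le] at this
    rcases ν.support.eq_empty_or_nonempty with he | hne
    · left
      refine ⟨he, ?_⟩
      have h0 : HS ν.support = 0 := by rw [he]; simp [HS]
      have h1 : (μH[1] ν.support).toReal = 0 := by rw [he]; simp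
      rw [h0, h1] at g4
      linarith
    · right
      refine ⟨hne, ?_⟩
      have hcomp : Comp rect ν.support := ⟨g1, ⟨hne, hν.conn⟩, g3, g2⟩
      have := hmax _ hcomp
      linarith
  refine ⟨L, hL0, hL1, ⟨HS S, hadm, ?_⟩, ?_⟩
  · intro ν hν
    have h1 : (μH[1] ν.support).toReal ≤ L := by
      have h2 : μH[1] ν.support ≤ ENNReal.ofReal L := by
        rw [← HS_univ]
        exact (hν.ge univ).trans hν.mass
      have := ENNReal.toReal_mono ENNReal.ofReal_ne_top h2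
      rwa [ENNReal.toReal_ofReal hL0.le] at this
    rcases hkey ν hν with ⟨-, h⟩ | ⟨-, h⟩
    · exact h.le
    · linarith
  · rintro μ ⟨hμ, hμmax⟩
    have h0 := hμmax _ hadm
    rcases hkey μ hμ with ⟨-, h⟩ | ⟨hne, h⟩
    · exact absurd h0 (not_le.mpr h)
    · have h1 : L ≤ (μH[1] μ.support).toReal := by linarith
      have h2 : μH[1] μ.support ≤ ENNReal.ofReal L := by
        rw [← HS_univ]
        exact (hμ.ge univ).trans hμ.mass
      have h3 : μH[1] μ.support = ENNReal.ofReal L := by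
        apply le_antisymm h2
        exact ENNReal.ofReal_le_of_le_toReal h1
      refine ⟨hne, h3, ?_⟩
      have hfin : IsFiniteMeasure μ := ⟨hμ.mass.trans_lt ENNReal.ofReal_lt_top⟩
      have hfin' : IsFiniteMeasure ((μH[1] : Measure ℂ).restrict μ.support) :=
        HS_fin (by rw [h3]; exact ENNReal.ofReal_ne_top)
      symm
      apply Measure.eq_of_le_of_measure_univ_eq hμ.ge
      apply le_antisymm (hμ.ge univ)
      rw [Measure.restrict_apply_univ, h3]
      exact hμ.mass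

end Pool.Agent.H234.ST
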