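import Pool.Agent.H234.ST.Defs

/-!
# Selection theorem for connected compact sets
-/

set_option autoImplicit false

open MeasureTheory Set Metric Filter Topology
open scoped ContDiff ENNReal

namespace Pool.Agent.H553.ST

open Pool.Agent.H234.ST

/-- a limit of preconnected sets (two-sided approximation) is preconnected -/
lemma preconnected_limit (S : Set ℂ) (T : ℕ → Set ℂ) (hS : IsCompact S)
    (hT : ∀ k, IsPreconnected (T k)) (h1 : Near S T)
    (h2 : ∀ ε : ℝ, 0 < ε → ∀ᶠ k in atTop, ∀ y ∈ T k, ∃ x ∈ S, dist x y < ε) :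
    IsPreconnected S := by
  rw [isPreconnected_iff_subset_of_disjoint_closed]
  intro u v hu hv huv hd
  by_contra hcon
  push Not at hcon
  obtain ⟨hnu, hnv⟩ := hcon
  obtain ⟨b, hbS, hbu⟩ := Set.not_subset.mp hnu
  obtain ⟨a, haS, hav⟩ := Set.not_subset.mp hnv
  have hA : IsCompact (S ∩ u) := hS.inter_right hu
  have hB : IsCompact (S ∩ v) := hS.inter_right hv
  have hAB : Disjoint (S ∩ u) (S ∩ v) := by
    rw [Set.disjoint_iff]
    rintro z ⟨⟨hzS, hzu⟩, ⟨_, hzv⟩⟩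
    have : z ∈ S ∩ (u ∩ v) := ⟨hzS, hzu, hzv⟩
    rw [hd] at this
    exact this
  have hau : a ∈ S ∩ u := ⟨haS, (huv haS).resolve_right hav⟩
  have hbv : b ∈ S ∩ v := ⟨hbS, (huv hbS).resolve_left hbu⟩
  obtain ⟨δ, hδ, hdis⟩ := hAB.exists_thickenings hA hB.isClosed
  obtain ⟨k, hk1, hk2⟩ := ((h1 δ hδ).and (h2 δ hδ)).exists
  have hsub : T k ⊆ thickening δ (S ∩ u) ∪ thickening δ (S ∩ v) := by
    intro y hy
    obtain ⟨x, hxS, hxy⟩ := hk2 y hy
    rcases huv hxS with hx | hx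
    · left
      rw [mem_thickening_iff]
      exact ⟨x, ⟨hxS, hx⟩, by rwa [dist_comm]⟩
    · right
      rw [mem_thickening_iff]
      exact ⟨x, ⟨hxS, hx⟩, by rwa [dist_comm]⟩
  obtain ⟨y1, hy1, hd1⟩ := hk1 a haS
  obtain ⟨y2, hy2, hd2⟩ := hk1 b hbS
  have hm1 : (T k ∩ thickening δ (S ∩ u)).Nonempty :=
    ⟨y1, hy1, by rw [mem_thickening_iff]; exact ⟨a, hau, by rwa [dist_comm]⟩⟩
  have hm2 : (T k ∩ thickening δ (S ∩ v)).Nonempty :=
    ⟨y2, hy2, by rw [mem_thickening_iff]; exact ⟨b, hbv, by rwa [dist_comm]⟩⟩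
  obtain ⟨z, _, hz1, hz2⟩ := hT k _ _ isOpen_thickening isOpen_thickening hsub hm1 hm2
  exact Set.disjoint_left.mp hdis hz1 hz2

theorem blaschke : S_Blaschke := by
  intro K T hK hT
  haveI : CompactSpace K := isCompact_iff_compactSpace.mp hK
  have hcomp : ∀ k, IsCompact (Subtype.val ⁻¹' T k : Set K) := by
    intro k
    exact ((hT k).1.isClosed.preimage continuous_subtype_val).isCompact
  have hne : ∀ k, (Subtype.val ⁻¹' T k : Set K).Nonempty := by
    intro k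
    obtain ⟨y, hy⟩ := (hT k).2.1.nonempty
    exact ⟨⟨y, (hT k).2.2 hy⟩, hy⟩
  let T' : ℕ → TopologicalSpace.NonemptyCompacts K := fun k =>
    ⟨⟨Subtype.val ⁻¹' T k, hcomp k⟩, hne k⟩
  obtain ⟨S', φ, hφ, hlim⟩ := CompactSpace.tendsto_subseq T'
  have hclose : ∀ ε : ℝ, 0 < ε → ∀ᶠ k in atTop,
      hausdorffDist (Subtype.val ⁻¹' T (φ k) : Set K) (S' : Set K) < ε := by
    intro ε hε
    have h1 := (Metric.tendsto_nhds.mp hlim) ε hε
    filter_upwards [h1] with k hk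
    rw [NonemptyCompacts.dist_eq] at hk
    exact hk
  have hfin : ∀ k, hausdorffEDist (Subtype.val ⁻¹' T (φ k) : Set K) (S' : Set K) ≠ ⊤ := by
    intro k
    exact hausdorffEDist_ne_top_of_nonempty_of_bounded (hne _) S'.nonempty
      (hcomp _).isBounded S'.isCompact.isBounded
  set S : Set ℂ := Subtype.val '' (S' : Set K) with hSdef
  have hnear : Near S (fun k => T (φ k)) := by
    intro ε hε
    filter_upwards [hclose ε hε] with k hk
    rintro _ ⟨x, hx, rfl⟩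
    obtain ⟨y, hy, hxy⟩ := exists_dist_lt_of_hausdorffDist_lt' hx hk (hfin k)
    exact ⟨y, hy, by rw [dist_comm]; exact hxy⟩
  have hnear2 : ∀ ε : ℝ, 0 < ε → ∀ᶠ k in atTop, ∀ y ∈ T (φ k), ∃ x ∈ S, dist x y < ε := by
    intro ε hε
    filter_upwards [hclose ε hε] with k hk
    intro y hy
    have hyK : y ∈ K := (hT (φ k)).2.2 hy
    obtain ⟨x, hx, hxy⟩ := exists_dist_lt_of_hausdorffDist_lt (x := (⟨y, hyK⟩ : K))
      (show (⟨y, hyK⟩ : K) ∈ (Subtype.val ⁻¹' T (φ k) : Set K) from hy) hk (hfin k)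
    exact ⟨x, ⟨x, hx, rfl⟩, by rw [dist_comm]; exact hxy⟩
  have hSc : IsCompact S := S'.isCompact.image continuous_subtype_val
  refine ⟨φ, S, hφ, hSc, ⟨S'.nonempty.image _, ?_⟩, ?_, hnear, hnear2⟩
  · exact preconnected_limit S (fun k => T (φ k)) hSc (fun k => (hT (φ k)).2.1.isPreconnected)
      hnear hnear2
  · rintro _ ⟨x, _, rfl⟩
    exact x.2

end Pool.Agent.H553.ST
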