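import Pool.Agent.H234.ST.Assembly

set_option autoImplicit false

open MeasureTheory Set Metric Filter Topology
open scoped ContDiff ENNReal

namespace Pool.Agent.H234.ST

lemma ball_sub_rect {x : ℝ} (h1 : 1 / 2 ≤ x) (h2 : x ≤ 5 / 2) :
    closedBall (⟨x, 1 / 2⟩ : ℂ) (1 / 4) ⊆ rect := by
  intro z hz
  rw [mem_closedBall, dist_eq_norm] at hz
  have g1 := (Complex.abs_re_le_norm (z - ⟨x, 1 / 2⟩)).trans hz
  have g2 := (Complex.abs_im_le_norm (z - ⟨x, 1 / 2⟩)).trans hz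
  simp only [Complex.sub_re, Complex.sub_im] at g1 g2
  rw [abs_le] at g1 g2
  refine ⟨?_, ?_, ?_, ?_⟩ <;> linarith [g1.1, g1.2, g2.1, g2.2]

/-- A test function with support in a given ball. -/
lemma exists_bump {x : ℝ} (h1 : 1 / 2 ≤ x) (h2 : x ≤ 5 / 2) :
    ∃ w : ℂ → ℝ, IsTest rect w ∧ w ≠ 0 ∧ tsupport w ⊆ closedBall (⟨x, 1 / 2⟩ : ℂ) (1 / 4) := by
  let f : ContDiffBump (⟨x, 1 / 2⟩ : ℂ) := ⟨1 / 8, 1 / 4, by norm_num, by norm_num⟩
  have hts : tsupport f = closedBall (⟨x, 1 / 2⟩ : ℂ) (1 / 4) := f.tsupport_eq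
  refine ⟨f, ⟨f.contDiff, f.hasCompactSupport, ?_⟩, ?_, ?_⟩
  · rw [hts]; exact ball_sub_rect h1 h2
  · intro h0
    have h3 : f (⟨x, 1 / 2⟩ : ℂ) = 1 := f.one_of_mem_closedBall (mem_closedBall_self (by
      have := f.rIn_pos
      exact this.le))
    rw [h0] at h3
    simp at h3
  · rw [hts]

lemma lam_le_of_disjoint {w : ℂ → ℝ} (hw : IsTest rect w) (hw0 : w ≠ 0) {m : ℝ} (hm : 0 < m)
    {S : Set ℂ} (hd : Disjoint (tsupport w) S) :
    lam rect m (HS S) ≤ (∫ z in rect, ‖fderiv ℝ w z‖ ^ 2) / ∫ z in rect, w z ^ 2 := by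
  have h := csInf_le (lam_bdd (Ω := rect) hm.le (HS S)) ⟨w, hw, hw0, rfl⟩
  have h0 : (∫ z, ‖fderiv ℝ w z‖ ^ 2 ∂(HS S)) = 0 := by
    rw [HS]
    apply setIntegral_eq_zero_of_forall_eq_zero
    intro z hz
    have h1 : z ∉ tsupport w := fun h => (Set.disjoint_left.mp hd h) hz
    have h2 : fderiv ℝ w z = 0 := by
      by_contra hne
      exact h1 (support_fderiv_subset ℝ (Function.mem_support.mpr hne))
    rw [h2]; simp
  unfold energy at h
  rw [h0, mul_zero, add_zero] at h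
  exact h

theorem bound : S_Bound := by
  obtain ⟨w1, hw1, hn1, hs1⟩ := exists_bump (x := 1 / 2) le_rfl (by norm_num)
  obtain ⟨w2, hw2, hn2, hs2⟩ := exists_bump (x := 5 / 2) (by norm_num) le_rfl
  refine ⟨max ((∫ z in rect, ‖fderiv ℝ w1 z‖ ^ 2) / ∫ z in rect, w1 z ^ 2)
    ((∫ z in rect, ‖fderiv ℝ w2 z‖ ^ 2) / ∫ z in rect, w2 z ^ 2), ?_⟩
  intro m S hm hS hSc hlen
  by_cases h : Disjoint (tsupport w1) S
  · exact (lam_le_of_disjoint hw1 hn1 hm h).trans (le_max_left _ _)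
  · refine (lam_le_of_disjoint hw2 hn2 hm ?_).trans (le_max_right _ _)
    rw [Set.disjoint_left]
    intro y hy hyS
    obtain ⟨x, hx, hxS⟩ := Set.not_disjoint_iff.mp h
    have hxb := hs1 hx
    have hyb := hs2 hy
    have hd := Lib.H_conn hSc hxS hyS
    have hd1 : dist x y ≤ 1 := by
      have := hd.trans hlen
      rwa [ENNReal.ofReal_le_one] at this
    rw [mem_closedBall, dist_eq_norm] at hxb hyb
    have g1 := (Complex.abs_re_le_norm _).trans hxb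
    have g2 := (Complex.abs_re_le_norm _).trans hyb
    rw [dist_eq_norm] at hd1
    have g3 := (Complex.abs_re_le_norm _).trans hd1
    simp only [Complex.sub_re] at g1 g2 g3
    rw [abs_le] at g1 g2 g3
    linarith [g1.1, g1.2, g2.1, g2.2, g3.1, g3.2]

end Pool.Agent.H234.ST
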