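import Pool.Agent.H234.ST.Defs

set_option autoImplicit false

/-! # ST7: the flux inequality (subtask by helper284) -/

open MeasureTheory Set Metric Filter Topology
open scoped ContDiff ENNReal

namespace Pool.Agent.H284.ST

open Pool.Agent.H234.ST

section prim

variable {ρ : ℝ → ℝ}

lemma prim_deriv (hρ : ContDiff ℝ ∞ ρ) (s : ℝ) :
    HasDerivAt (fun s => ∫ x in (0 : ℝ)..s, ρ x) (ρ s) s :=
  (hρ.continuous.integral_hasStrictDerivAt 0 s).hasDerivAt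

lemma prim_smooth (hρ : ContDiff ℝ ∞ ρ) : ContDiff ℝ ∞ (fun s => ∫ x in (0 : ℝ)..s, ρ x) := by
  rw [contDiff_infty_iff_deriv]
  refine ⟨fun s => (prim_deriv hρ s).differentiableAt, ?_⟩
  have : deriv (fun s => ∫ x in (0 : ℝ)..s, ρ x) = ρ := by
    funext s
    exact (prim_deriv hρ s).deriv
  rw [this]
  exact hρ

lemma prim_abs (hρ : ContDiff ℝ ∞ ρ) (hc : HasCompactSupport ρ) (h0 : ∀ s, 0 ≤ ρ s) (s : ℝ) :
    |∫ x in (0 : ℝ)..s, ρ x| ≤ ∫ x, ρ x := by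
  rw [intervalIntegral.abs_integral_eq_abs_integral_uIoc, abs_of_nonneg
    (integral_nonneg fun x => h0 x)]
  exact setIntegral_le_integral (hρ.continuous.integrable_of_hasCompactSupport hc)
    (Eventually.of_forall h0)

lemma aux1 {a : ℝ} (h1 : 0 ≤ a) (h2 : a ≤ 1) : (1 - a) ^ 2 ≤ 1 := by nlinarith

lemma aux2 {a : ℝ} (h1 : 0 ≤ a) (h2 : a ≤ 1) : (1 - a) ^ 2 + a ≤ 1 := by nlinarith

lemma aux3 {a b r : ℝ} (hr : 0 ≤ r) (h : |b| ≤ r) : a ^ 2 - r * (a ^ 2 + 1) ≤ (a - b) ^ 2 := by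
  have h3 : a * b ≤ |a| * r := by
    refine (le_abs_self _).trans ?_
    rw [abs_mul]
    exact mul_le_mul_of_nonneg_left h (abs_nonneg _)
  have h4 : 2 * |a| ≤ a ^ 2 + 1 := by
    rw [← sq_abs]
    nlinarith [sq_nonneg (|a| - 1)]
  have h5 := mul_le_mul_of_nonneg_left h4 hr
  nlinarith [sq_nonneg b]

end prim

/-- **ST7** -/
theorem flux : S_Flux := by
  intro Ω m μ u ρ hΩ hΩb hm hμ hu hu1 hρ hρc hρ0 hρ1
  obtain ⟨hus, huc, hut⟩ := hu
  obtain ⟨P, hP⟩ : ∃ P : ℝ → ℝ, P = fun s => ∫ x in (0 : ℝ)..s, ρ x := ⟨_, rfl⟩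
  obtain ⟨r, hr⟩ : ∃ r : ℝ, r = ∫ s, ρ s := ⟨_, rfl⟩
  have hPs : ContDiff ℝ ∞ P := by rw [hP]; exact prim_smooth hρ
  have hPd : ∀ s, HasDerivAt P (ρ s) s := by
    intro s
    rw [hP]
    exact prim_deriv hρ s
  have hPa : ∀ s, |P s| ≤ r := by
    intro s
    rw [hP, hr]
    exact prim_abs hρ hρc hρ0 s
  have hP0 : P 0 = 0 := by
    rw [hP]
    exact intervalIntegral.integral_same
  have hr0 : 0 ≤ r := (abs_nonneg _).trans (hPa 0)
  obtain ⟨g, hg⟩ : ∃ g : ℝ → ℝ, g = fun s => s - P s := ⟨_, rfl⟩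
  have hg0 : g 0 = 0 := by
    rw [hg]
    simp only
    rw [hP0, sub_zero]
  have hgs : ContDiff ℝ ∞ g := by
    rw [hg]
    exact contDiff_id.sub hPs
  have hgd : ∀ s, HasDerivAt g (1 - ρ s) s := by
    intro s
    rw [hg]
    exact (hasDerivAt_id s).sub (hPd s)
  obtain ⟨v, hv⟩ : ∃ v : ℂ → ℝ, v = trunc ρ u := ⟨_, rfl⟩
  have hvg : v = g ∘ u := by
    rw [hv, hg, hP]
    rfl
  rw [← hv, ← hr]
  have hvz : ∀ z, v z = u z - P (u z) := by
    intro z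
    rw [hvg, hg]
    rfl
  have hvs : ContDiff ℝ ∞ v := by
    rw [hvg]
    exact hgs.comp hus
  have hvc : HasCompactSupport v := by
    rw [hvg]
    exact huc.comp_left hg0
  have hvt : IsTest Ω v := by
    refine ⟨hvs, hvc, ?_⟩
    refine subset_trans ?_ hut
    rw [hvg]
    exact tsupport_comp_subset hg0 u
  have hud : ∀ z, HasFDerivAt u (fderiv ℝ u z) z := fun z =>
    (hus.differentiable (by decide) z).hasFDerivAt
  have hvd : ∀ z, ‖fderiv ℝ v z‖ = (1 - ρ (u z)) * ‖fderiv ℝ u z‖ := by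
    intro z
    have h1 : HasFDerivAt v ((1 - ρ (u z)) • fderiv ℝ u z) z := by
      rw [hvg]
      exact (hgd (u z)).comp_hasFDerivAt z (hud z)
    rw [h1.fderiv, norm_smul, Real.norm_eq_abs, abs_of_nonneg (sub_nonneg.2 (hρ1 _))]
  -- integrability
  have hfc : Continuous fun z => ‖fderiv ℝ u z‖ ^ 2 :=
    ((hus.continuous_fderiv (by decide)).norm).pow 2
  have hfs : HasCompactSupport fun z => ‖fderiv ℝ u z‖ ^ 2 := by
    have h1 : HasCompactSupport (fderiv ℝ u) := huc.fderiv (𝕜 := ℝ)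
    exact h1.comp_left (g := fun L : ℂ →L[ℝ] ℝ => ‖L‖ ^ 2) (by simp)
  have hvfc : Continuous fun z => ‖fderiv ℝ v z‖ ^ 2 :=
    ((hvs.continuous_fderiv (by decide)).norm).pow 2
  have hvfs : HasCompactSupport fun z => ‖fderiv ℝ v z‖ ^ 2 := by
    have h1 : HasCompactSupport (fderiv ℝ v) := hvc.fderiv (𝕜 := ℝ)
    exact h1.comp_left (g := fun L : ℂ →L[ℝ] ℝ => ‖L‖ ^ 2) (by simp)
  have hρuc : Continuous fun z => ρ (u z) * ‖fderiv ℝ u z‖ ^ 2 :=
    (hρ.continuous.comp hus.continuous).mul hfc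
  have hρus : HasCompactSupport fun z => ρ (u z) * ‖fderiv ℝ u z‖ ^ 2 :=
    hfs.mul_left (f := fun z => ρ (u z))
  have i1 : Integrable (fun z => ‖fderiv ℝ u z‖ ^ 2) (volume : Measure ℂ) :=
    hfc.integrable_of_hasCompactSupport hfs
  have i2 : Integrable (fun z => ‖fderiv ℝ u z‖ ^ 2) μ := hfc.integrable_of_hasCompactSupport hfs
  have i3 : Integrable (fun z => ‖fderiv ℝ v z‖ ^ 2) (volume : Measure ℂ) :=
    hvfc.integrable_of_hasCompactSupport hvfs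
  have i4 : Integrable (fun z => ‖fderiv ℝ v z‖ ^ 2) μ := hvfc.integrable_of_hasCompactSupport hvfs
  have i5 : Integrable (fun z => ρ (u z) * ‖fderiv ℝ u z‖ ^ 2) μ :=
    hρuc.integrable_of_hasCompactSupport hρus
  have hle1 : ∀ z, ‖fderiv ℝ v z‖ ^ 2 ≤ ‖fderiv ℝ u z‖ ^ 2 := by
    intro z
    rw [hvd, mul_pow]
    exact mul_le_of_le_one_left (sq_nonneg _) (aux1 (hρ0 (u z)) (hρ1 (u z)))
  have hle2 : ∀ z, ‖fderiv ℝ v z‖ ^ 2 + ρ (u z) * ‖fderiv ℝ u z‖ ^ 2 ≤ ‖fderiv ℝ u z‖ ^ 2 := by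
    intro z
    rw [hvd, mul_pow, ← add_mul]
    exact mul_le_of_le_one_left (sq_nonneg _) (aux2 (hρ0 (u z)) (hρ1 (u z)))
  have hen : energy Ω m μ v + m * (∫ z, ρ (u z) * ‖fderiv ℝ u z‖ ^ 2 ∂μ) ≤ energy Ω m μ u := by
    unfold energy
    have h1 : (∫ z in Ω, ‖fderiv ℝ v z‖ ^ 2) ≤ ∫ z in Ω, ‖fderiv ℝ u z‖ ^ 2 :=
      integral_mono i3.integrableOn i1.integrableOn hle1
    have h2 : (∫ z, ‖fderiv ℝ v z‖ ^ 2 ∂μ) + (∫ z, ρ (u z) * ‖fderiv ℝ u z‖ ^ 2 ∂μ) ≤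
        ∫ z, ‖fderiv ℝ u z‖ ^ 2 ∂μ := by
      rw [← integral_add i4 i5]
      exact integral_mono (i4.add i5) i2 hle2
    have h3 := mul_le_mul_of_nonneg_left h2 hm.le
    linarith
  have hvol : volume Ω ≠ ⊤ := hΩb.measure_lt_top.ne
  have hL2 : 1 - r * (1 + (volume Ω).toReal) ≤ ∫ z in Ω, (v z) ^ 2 := by
    have c1 : Continuous fun z => u z ^ 2 := hus.continuous.pow 2
    have c2 : Continuous fun z => v z ^ 2 := hvs.continuous.pow 2
    have s1 : HasCompactSupport fun z => u z ^ 2 :=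
      huc.comp_left (g := fun x : ℝ => x ^ 2) (by norm_num)
    have s2 : HasCompactSupport fun z => v z ^ 2 :=
      hvc.comp_left (g := fun x : ℝ => x ^ 2) (by norm_num)
    have j1 : Integrable (fun z => u z ^ 2) (volume.restrict Ω) :=
      (c1.integrable_of_hasCompactSupport s1).integrableOn
    have j2 : Integrable (fun z => v z ^ 2) (volume.restrict Ω) :=
      (c2.integrable_of_hasCompactSupport s2).integrableOn
    have hfin : IsFiniteMeasure (volume.restrict Ω : Measure ℂ) :=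
      ⟨by rw [Measure.restrict_apply_univ]; exact lt_top_iff_ne_top.2 hvol⟩
    have j3 : Integrable (fun _ : ℂ => (1 : ℝ)) (volume.restrict Ω) := integrable_const _
    have j4 : Integrable (fun z : ℂ => u z ^ 2 + 1) (volume.restrict Ω) := j1.add j3
    have j5 : Integrable (fun z : ℂ => r * (u z ^ 2 + 1)) (volume.restrict Ω) := j4.const_mul r
    have k1 : ∫ z in Ω, (u z ^ 2 + 1) = 1 + (volume Ω).toReal := by
      rw [integral_add j1 j3, hu1, setIntegral_const, smul_eq_mul, mul_one]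
      rfl
    have h1 : ∫ z in Ω, (u z ^ 2 - r * (u z ^ 2 + 1)) = 1 - r * (1 + (volume Ω).toReal) := by
      rw [integral_sub j1 j5, integral_const_mul, k1, hu1]
    rw [← h1]
    refine integral_mono (j1.sub j5) j2 fun z => ?_
    show u z ^ 2 - r * (u z ^ 2 + 1) ≤ v z ^ 2
    rw [hvz]
    exact aux3 hr0 (hPa (u z))
  refine ⟨hvt, hvd, hen, hL2, ?_⟩
  have henn : ∀ w : ℂ → ℝ, 0 ≤ energy Ω m μ w := by
    intro w
    unfold energy
    exact add_nonneg (integral_nonneg fun z => sq_nonneg _)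
      (mul_nonneg hm.le (integral_nonneg fun z => sq_nonneg _))
  have hqn : ∀ q ∈ {q : ℝ | ∃ u : ℂ → ℝ, IsTest Ω u ∧ u ≠ 0 ∧
      q = energy Ω m μ u / ∫ z in Ω, u z ^ 2}, 0 ≤ q := by
    rintro q ⟨w, -, -, rfl⟩
    exact div_nonneg (henn w) (integral_nonneg fun z => sq_nonneg _)
  have hlam0 : 0 ≤ lam Ω m μ := Real.sInf_nonneg hqn
  have hI0 : 0 ≤ ∫ z in Ω, v z ^ 2 := integral_nonneg fun z => sq_nonneg _
  have hlamv : lam Ω m μ * (∫ z in Ω, v z ^ 2) ≤ energy Ω m μ v := by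
    by_cases hz : (∫ z in Ω, v z ^ 2) = 0
    · rw [hz, mul_zero]
      exact henn v
    · have hpos : 0 < ∫ z in Ω, v z ^ 2 := lt_of_le_of_ne hI0 (Ne.symm hz)
      rw [← le_div_iff₀ hpos]
      refine csInf_le ⟨0, hqn⟩ ⟨v, hvt, ?_, rfl⟩
      rintro rfl
      apply hz
      simp
  have hfin := mul_le_mul_of_nonneg_left hL2 hlam0
  rw [mul_sub, mul_one] at hfin
  linarith

end Pool.Agent.H284.ST
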