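import Pool.Agent.H234.ST.Defs
import Pool.Agent.H234.ST.Path

set_option autoImplicit false

open MeasureTheory Set Metric Filter Topology
open scoped ContDiff ENNReal

namespace Pool.Agent.H234.ST

lemma HS_closedBall (S : Set ℂ) (x : ℂ) (r : ℝ) :
    HS S (closedBall x r) = μH[1] (S ∩ closedBall x r) := by
  rw [HS, Measure.restrict_apply isClosed_closedBall.measurableSet, inter_comm]

theorem golab (h1 : S_Local) (h2 : S_Cover) (h4 : S_Tan) : S_Golab := by
  intro S T M hM hS hSc hT hn U hU
  by_cases hnt : S.Nontrivial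
  swap
  · have hsub : S.Subsingleton := not_nontrivial_iff.mp hnt
    have h0 : μH[1] (S ∩ U) = 0 := by
      rcases hsub.eq_empty_or_singleton with h | ⟨x, h⟩
      · rw [h]; simp
      · exact measure_mono_null inter_subset_left (by rw [h]; exact Lib.noAtom x)
    rw [h0]
    exact bot_le
  -- the lower bound with constant `1/3`
  have hball : ∀ x ∈ S, ∀ ρ : ℝ, 0 < ρ → ∃ r : ℝ, 0 < r ∧ r < ρ ∧
      ∀ᶠ k in atTop, ENNReal.ofReal (1 / 3 * (2 * r)) ≤ HS (T k) (closedBall x r) := by
    intro x hx ρ hρ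
    obtain ⟨y, hy, hyx⟩ := hnt.exists_ne x
    have hd : 0 < dist x y := dist_pos.mpr (Ne.symm hyx)
    set r : ℝ := min (ρ / 2) (dist x y / 8) with hr
    have hr0 : 0 < r := lt_min (by linarith) (by linarith)
    have hr1 : r ≤ ρ / 2 := min_le_left _ _
    have hr2 : r ≤ dist x y / 8 := min_le_right _ _
    refine ⟨r, hr0, by linarith, ?_⟩
    filter_upwards [hn (min (r / 3) (dist x y / 4)) (lt_min (by linarith) (by linarith))] with k hk
    obtain ⟨z, hz, hxz⟩ := hk x hx
    obtain ⟨z', hz', hyz⟩ := hk y hy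
    have g1 := hxz.trans_le (min_le_left _ _)
    have g2 := hyz.trans_le (min_le_right _ _)
    have g3 : 2 / 3 * r ≤ dist z z' := by
      have e1 := dist_triangle4 x z z' y
      rw [dist_comm z' y] at e1
      linarith
    have g4 := Lib.H_ball (hT k).2.1 hz hz' g3
    rw [HS_closedBall]
    have g5 : (1 : ℝ) / 3 * (2 * r) = 2 / 3 * r := by ring
    rw [g5]
    refine g4.trans (measure_mono (inter_subset_inter_right _ ?_))
    intro w hw
    rw [mem_ball] at hw
    rw [mem_closedBall]
    have := dist_triangle w z x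
    rw [dist_comm z x] at this
    linarith
  have hfin : μH[1] S ≠ ⊤ := by
    intro htop
    have h := h2 S univ (fun k => HS (T k)) (1 / 3) M (by norm_num) isOpen_univ (subset_univ _)
      (Frequently.of_forall fun k => by
        rw [HS, Measure.restrict_apply_univ]
        exact (hT k).2.2) hball
    rw [htop, ENNReal.mul_top] at h
    · exact hM (top_le_iff.mp h)
    · simp
  have htan := h4 S hS hSc hfin hnt
  set A : Set ℂ := {x | x ∈ S ∩ U ∧ Tan S x} with hA
  have hAle : μH[1] (S ∩ U) ≤ μH[1] A := by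
    calc μH[1] (S ∩ U) ≤ μH[1] (A ∪ {x | x ∈ S ∧ ¬ Tan S x}) := by
          apply measure_mono
          intro x hx
          by_cases h : Tan S x
          · exact Or.inl ⟨hx, h⟩
          · exact Or.inr ⟨hx.1, h⟩
      _ ≤ μH[1] A + μH[1] {x | x ∈ S ∧ ¬ Tan S x} := measure_union_le _ _
      _ = μH[1] A := by rw [htan, add_zero]
  have key : ∀ θ : ℝ, 0 < θ → θ < 1 → ENNReal.ofReal θ * μH[1] (S ∩ U) ≤
      liminf (fun k => μH[1] (T k ∩ U)) atTop := by
    intro θ hθ0 hθ1
    obtain ⟨η, hη, hloc⟩ := h1 θ hθ0 hθ1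
    apply le_of_forall_gt_imp_ge_of_dense
    intro M' hM'
    have hfreq : ∃ᶠ k in atTop, HS (T k) U ≤ M' := by
      have := frequently_lt_of_liminf_lt (by isBoundedDefault) hM'
      refine this.mono fun k hk => ?_
      rw [HS, Measure.restrict_apply hU.measurableSet, inter_comm]
      exact hk.le
    refine (mul_le_mul_right hAle _).trans ?_
    refine h2 A U (fun k => HS (T k)) θ M' hθ0 hU (fun x hx => hx.1.2) hfreq ?_
    rintro x ⟨⟨hx, hxU⟩, τ, hτ, hτη⟩ ρ hρ
    obtain ⟨ρ1, hρ1, hρη⟩ := hτη (η / 2) (by linarith)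
    obtain ⟨y, hy, hyx⟩ := hnt.exists_ne x
    have hd : 0 < dist x y := dist_pos.mpr (Ne.symm hyx)
    set r : ℝ := min (min (ρ / 2) (ρ1 / 2)) (dist x y / 8) with hr
    have hr0 : 0 < r := lt_min (lt_min (by linarith) (by linarith)) (by linarith)
    have hr1 : r ≤ ρ / 2 := (min_le_left _ _).trans (min_le_left _ _)
    have hr3 : r ≤ ρ1 / 2 := (min_le_left _ _).trans (min_le_right _ _)
    have hr2 : r ≤ dist x y / 8 := min_le_right _ _
    refine ⟨r, hr0, by linarith, ?_⟩
    filter_upwards [hn (min (η / 2 * r) (dist x y / 4)) (lt_min (by positivity) (by linarith))]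
      with k hk
    rw [HS_closedBall]
    refine hloc (T k) (hT k).1 (hT k).2.1 x τ r hr0 hτ ?_ ?_
    · obtain ⟨z', hz', hyz⟩ := hk y hy
      have g2 := hyz.trans_le (min_le_right _ _)
      refine ⟨z', hz', ?_⟩
      have e1 := dist_triangle x z' y
      rw [dist_comm x z', dist_comm z' y] at e1
      linarith
    · intro t ht
      obtain ⟨w, hw, hwt⟩ := hρη r hr0 (by linarith) t ht
      obtain ⟨z, hz, hwz⟩ := hk w hw
      have g1 := hwz.trans_le (min_le_left _ _)
      refine ⟨z, hz, ?_⟩
      have e1 := dist_triangle z w (x + t • τ)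
      rw [dist_comm z w] at e1
      calc dist z (x + t • τ) ≤ η / 2 * r + η / 2 * r := by linarith
        _ = η * r := by ring
  -- let `θ` tend to one
  have hlim : Tendsto (fun n : ℕ => ENNReal.ofReal (1 - 1 / ((n : ℝ) + 2)) * μH[1] (S ∩ U)) atTop
      (𝓝 (ENNReal.ofReal 1 * μH[1] (S ∩ U))) := by
    apply ENNReal.Tendsto.mul_const
    · apply (ENNReal.continuous_ofReal.tendsto _).comp
      have h : Tendsto (fun n : ℕ => 1 / ((n : ℝ) + 2)) atTop (𝓝 0) := by
        apply tendsto_const_nhds.div_atTop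
        exact tendsto_natCast_atTop_atTop.atTop_add tendsto_const_nhds
      have := (tendsto_const_nhds (x := (1 : ℝ))).sub h
      simpa using this
    · left
      simp
  rw [ENNReal.ofReal_one, one_mul] at hlim
  apply le_of_tendsto' hlim
  intro n
  have hn0 : (0 : ℝ) ≤ n := Nat.cast_nonneg n
  have h5 : 1 / ((n : ℝ) + 2) < 1 := by
    rw [div_lt_one (by linarith)]; linarith
  have h6 : 0 < 1 / ((n : ℝ) + 2) := by positivity
  exact key _ (by linarith) (by linarith)

end Pool.Agent.H234.ST
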