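import Mathlib
import Pool.Agent.H234.ST.Defs

/-!
# ST9: near minimisers with small gradient on the stiffener
-/

set_option autoImplicit false

open MeasureTheory Set Metric Filter Topology
open scoped ContDiff ENNReal Manifold
open Pool.Agent.H234.ST

namespace Pool.Agent.H59.ST

theorem test_exists {Ω : Set ℂ} (hΩ : IsOpen Ω) (hne : Ω.Nonempty) :
    ∃ u : ℂ → ℝ, IsTest Ω u ∧ u ≠ 0 := by
  obtain ⟨c, hc⟩ := hne
  obtain ⟨r, hr, hb⟩ := Metric.isOpen_iff.1 hΩ c hc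
  let f : ContDiffBump c := ⟨r / 4, r / 2, by linarith, by linarith⟩
  refine ⟨f, ⟨f.contDiff, f.hasCompactSupport, ?_⟩, ?_⟩
  · rw [f.tsupport_eq]
    refine (closedBall_subset_ball ?_).trans hb
    show r / 2 < r
    linarith
  · intro h
    have h1 : f c = 1 := f.one_of_mem_closedBall (by
      rw [mem_closedBall, dist_self]
      exact f.rIn_pos.le)
    rw [h] at h1
    simp at h1

theorem test_int {Ω : Set ℂ} {u : ℂ → ℝ} (hu : IsTest Ω u) :
    (∫ z in Ω, u z ^ 2) = ∫ z, u z ^ 2 := by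
  refine setIntegral_eq_integral_of_forall_compl_eq_zero fun x hx => ?_
  have h1 : u x = 0 := image_eq_zero_of_notMem_tsupport fun h => hx (hu.2.2 h)
  rw [h1]; norm_num

theorem test_int_pos {Ω : Set ℂ} {u : ℂ → ℝ} (hu : IsTest Ω u) (hne : u ≠ 0) :
    0 < ∫ z in Ω, u z ^ 2 := by
  rw [test_int hu]
  obtain ⟨x, hx⟩ := Function.ne_iff.1 hne
  have hcs : HasCompactSupport fun z => u z ^ 2 := by
    refine hu.2.1.comp_left (g := fun t : ℝ => t ^ 2) ?_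
    norm_num
  exact (hu.1.continuous.pow 2).integral_pos_of_hasCompactSupport_nonneg_nonzero hcs
    (fun z => sq_nonneg (u z)) (pow_ne_zero 2 hx)

theorem test_scale {Ω : Set ℂ} {u : ℂ → ℝ} (hu : IsTest Ω u) (c : ℝ) :
    IsTest Ω fun z => c * u z := by
  refine ⟨contDiff_const.mul hu.1, hu.2.1.mul_left, ?_⟩
  refine (closure_mono ?_).trans hu.2.2
  intro z hz hz2
  apply hz
  show c * u z = 0
  rw [hz2, mul_zero]

theorem norm_fderiv_scale {Ω : Set ℂ} {u : ℂ → ℝ} (hu : IsTest Ω u) (c : ℝ) (z : ℂ) :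
    ‖fderiv ℝ (fun z => c * u z) z‖ = |c| * ‖fderiv ℝ u z‖ := by
  have h1 : DifferentiableAt ℝ u z := hu.1.differentiable (by simp) z
  rw [fderiv_const_mul h1, norm_smul, Real.norm_eq_abs]

theorem energy_scale {Ω : Set ℂ} {m : ℝ} {μ : Measure ℂ} {u : ℂ → ℝ} (hu : IsTest Ω u) (c : ℝ) :
    energy Ω m μ (fun z => c * u z) = c ^ 2 * energy Ω m μ u := by
  unfold energy
  have h1 : ∀ z, ‖fderiv ℝ (fun z => c * u z) z‖ ^ 2 = c ^ 2 * ‖fderiv ℝ u z‖ ^ 2 := by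
    intro z
    rw [norm_fderiv_scale hu, mul_pow, sq_abs]
  simp only [h1]
  rw [integral_const_mul, integral_const_mul]
  ring

theorem int_scale {Ω : Set ℂ} {u : ℂ → ℝ} (c : ℝ) :
    (∫ z in Ω, (c * u z) ^ 2) = c ^ 2 * ∫ z in Ω, u z ^ 2 := by
  have h1 : ∀ z, (c * u z) ^ 2 = c ^ 2 * u z ^ 2 := fun z => by ring
  simp only [h1]
  rw [integral_const_mul]

theorem energy_nonneg {Ω : Set ℂ} {m : ℝ} (hm : 0 ≤ m) {μ : Measure ℂ} (u : ℂ → ℝ) :
    0 ≤ energy Ω m μ u := by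
  unfold energy
  have h1 : 0 ≤ ∫ z in Ω, ‖fderiv ℝ u z‖ ^ 2 := integral_nonneg fun z => sq_nonneg _
  have h2 : 0 ≤ ∫ z, ‖fderiv ℝ u z‖ ^ 2 ∂μ := integral_nonneg fun z => sq_nonneg _
  have := mul_nonneg hm h2
  linarith

theorem lam_nonneg {Ω : Set ℂ} {m : ℝ} (hm : 0 ≤ m) {μ : Measure ℂ} : 0 ≤ lam Ω m μ := by
  unfold lam
  refine Real.sInf_nonneg ?_
  rintro q ⟨u, _, _, rfl⟩
  exact div_nonneg (energy_nonneg hm u) (integral_nonneg fun z => sq_nonneg _)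

/-- Near minimisers. -/
theorem near_min {Ω : Set ℂ} {m : ℝ} {μ : Measure ℂ} (hΩ : IsOpen Ω)
    (hne : Ω.Nonempty) {η : ℝ} (hη : 0 < η) :
    ∃ u : ℂ → ℝ, IsTest Ω u ∧ (∫ z in Ω, u z ^ 2) = 1 ∧ energy Ω m μ u ≤ lam Ω m μ + η := by
  obtain ⟨u0, hu0, hu0'⟩ := test_exists hΩ hne
  obtain ⟨q, ⟨u, hu, hune, rfl⟩, hq⟩ := exists_lt_of_csInf_lt
    (s := {q : ℝ | ∃ u : ℂ → ℝ, IsTest Ω u ∧ u ≠ 0 ∧
      q = energy Ω m μ u / ∫ z in Ω, u z ^ 2})
    ⟨_, u0, hu0, hu0', rfl⟩ (show lam Ω m μ < lam Ω m μ + η by linarith)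
  have hI := test_int_pos hu hune
  set I := ∫ z in Ω, u z ^ 2 with hIdef
  have hc : (Real.sqrt I)⁻¹ ^ 2 = I⁻¹ := by
    rw [inv_pow, Real.sq_sqrt hI.le]
  refine ⟨fun z => (Real.sqrt I)⁻¹ * u z, test_scale hu _, ?_, ?_⟩
  · rw [int_scale, hc, ← hIdef, inv_mul_cancel₀ hI.ne']
  · rw [energy_scale hu, hc, inv_mul_eq_div]
    exact hq.le

/-- A cut-off function. -/
theorem cutoff (J : Set ℝ) (hJ : IsCompact J) {δ : ℝ} (hδ : 0 < δ) :
    ∃ ρ : ℝ → ℝ, ContDiff ℝ ∞ ρ ∧ HasCompactSupport ρ ∧ (∀ s, 0 ≤ ρ s) ∧ (∀ s, ρ s ≤ 1) ∧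
      (∀ s ∈ J, ρ s = 1) ∧ (∫ s, ρ s) ≤ (volume J).toReal + δ := by
  obtain ⟨U, hJU, hU, hUv⟩ := hJ.exists_isOpen_lt_add (μ := (volume : Measure ℝ))
    (ε := ENNReal.ofReal δ) (ENNReal.ofReal_pos.2 hδ).ne'
  obtain ⟨R, hR⟩ := hJ.isBounded.subset_ball 0
  have hUR : IsOpen (U ∩ ball 0 R) := hU.inter isOpen_ball
  obtain ⟨f, hf, hfr, hf0, hf1⟩ := exists_contMDiff_zero_iff_one_iff_of_isClosed 𝓘(ℝ, ℝ)
    (n := ⊤) (s := (U ∩ ball 0 R)ᶜ) (t := J) hUR.isClosed_compl hJ.isClosed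
    (disjoint_compl_left_iff_subset.2 (subset_inter hJU hR))
  have h0 : ∀ s, 0 ≤ f s := fun s => (hfr ⟨s, rfl⟩).1
  have h1 : ∀ s, f s ≤ 1 := fun s => (hfr ⟨s, rfl⟩).2
  have hsup : ∀ s, s ∉ U ∩ ball 0 R → f s = 0 := fun s hs => (hf0 s).1 hs
  have hcd : ContDiff ℝ ∞ f := contMDiff_iff_contDiff.1 hf
  have hcs : HasCompactSupport f := by
    refine HasCompactSupport.intro (isCompact_closedBall (0 : ℝ) R) fun s hs => ?_
    exact hsup s fun h => hs (ball_subset_closedBall h.2)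
  refine ⟨f, hcd, hcs, h0, h1, fun s hs => (hf1 s).1 hs, ?_⟩
  have hJf : volume J ≠ ⊤ := hJ.measure_lt_top.ne
  have hUf : volume U ≠ ⊤ := (hUv.trans (ENNReal.add_lt_top.2 ⟨hJf.lt_top, ENNReal.ofReal_lt_top⟩)).ne
  have h2 : (∫ s, f s) ≤ ∫ s, U.indicator (fun _ => (1 : ℝ)) s := by
    refine integral_mono (hcd.continuous.integrable_of_hasCompactSupport hcs) ?_ ?_
    · exact (integrable_indicator_iff hU.measurableSet).2 (integrableOn_const hUf)
    · intro s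
      by_cases hs : s ∈ U
      · rw [indicator_of_mem hs]
        exact h1 s
      · rw [indicator_of_notMem hs, hsup s fun h => hs h.1]
  rw [integral_indicator hU.measurableSet, setIntegral_const, smul_eq_mul, mul_one] at h2
  refine h2.trans ?_
  have h3 : (volume U).toReal ≤ (volume J + ENNReal.ofReal δ).toReal :=
    ENNReal.toReal_mono (ENNReal.add_ne_top.2 ⟨hJf, ENNReal.ofReal_ne_top⟩) hUv.le
  rw [ENNReal.toReal_add hJf ENNReal.ofReal_ne_top, ENNReal.toReal_ofReal hδ.le] at h3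
  exact h3

theorem ae_bound {u : ℂ → ℝ} (hu : ContDiff ℝ ∞ u) (hcs : HasCompactSupport u) :
    Continuous (fun z => ‖fderiv ℝ u z‖) ∧ HasCompactSupport (fun z => ‖fderiv ℝ u z‖) := by
  refine ⟨(hu.continuous_fderiv (by simp)).norm, ?_⟩
  exact (hcs.fderiv (𝕜 := ℝ)).norm

/-- ST9. -/
theorem key (h7 : S_Flux) (h8 : S_Area) : S_Key := by
  intro Ω S m Λ t ε hΩ hΩb hΩn hm hS hSf hΛ hC hε
  have hfin : IsFiniteMeasure (HS S) := by
    refine ⟨?_⟩
    rw [Measure.restrict_apply_univ]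
    exact lt_top_iff_ne_top.2 hSf
  set l := lam Ω m (HS S) with hl
  have hl0 : 0 ≤ l := lam_nonneg hm.le
  have hΛ0 : 0 ≤ Λ := hl0.trans hΛ
  set V := 1 + (volume Ω).toReal with hV
  have hV1 : 1 ≤ V := by
    have : 0 ≤ (volume Ω).toReal := ENNReal.toReal_nonneg
    linarith
  set C := Λ * V with hCdef
  have hC0 : 0 ≤ C := mul_nonneg hΛ0 (by linarith)
  have ht0 : 0 < t := by
    have h1 : 0 < m * t := hC0.trans_lt hC
    exact (pos_iff_pos_of_mul_pos h1).1 hm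
  obtain ⟨t', ht'C, ht't⟩ : ∃ t', C < m * t' ∧ t' < t := by
    refine ⟨(C / m + t) / 2, ?_, ?_⟩
    · have h1 : m * ((C / m + t) / 2) = (C + m * t) / 2 := by
        field_simp
      rw [h1]; linarith
    · have h1 : C / m < t := by
        rw [div_lt_iff₀ hm]
        linarith
      linarith
  have ht'0 : 0 < t' := by
    have h1 : 0 < m * t' := hC0.trans_lt ht'C
    exact (pos_iff_pos_of_mul_pos h1).1 hm
  set δ := m * t' - C with hδ
  have hδ0 : 0 < δ := by linarith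
  set K := (1 + C) / δ + 1 with hK
  have hK0 : 0 < K := by positivity
  set κ := K * V with hκ
  have hκ0 : 0 < κ := mul_pos hK0 (by linarith)
  -- the choice of η
  obtain ⟨η, hη0, hη1, hη2⟩ : ∃ η : ℝ, 0 < η ∧ η * (1 + (l + ε) * κ) ≤ ε ∧
      η * (κ * t ^ 2) ≤ t ^ 2 - t' ^ 2 := by
    have h1 : 0 < 1 + (l + ε) * κ := by positivity
    have h2 : 0 < κ * t ^ 2 := by positivity
    have h3 : 0 < t ^ 2 - t' ^ 2 := by nlinarith
    refine ⟨min (ε / (1 + (l + ε) * κ)) ((t ^ 2 - t' ^ 2) / (κ * t ^ 2)),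
      lt_min (by positivity) (by positivity), ?_, ?_⟩
    · rw [← le_div_iff₀ h1]
      exact min_le_left _ _
    · rw [← le_div_iff₀ h2]
      exact min_le_right _ _
  obtain ⟨u, hu, huI, huE⟩ := near_min (m := m) (μ := HS S) hΩ hΩn hη0
  rw [← hl] at huE
  obtain ⟨hcont, hcsn⟩ := ae_bound hu.1 hu.2.1
  -- the bad set
  set G := S ∩ {x | t' ≤ ‖fderiv ℝ u x‖} with hG
  have hGc : IsCompact G := hS.inter_right (isClosed_le continuous_const hcont)
  have hGf : μH[1] G ≠ ⊤ := ne_top_of_le_ne_top hSf (measure_mono inter_subset_left)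
  have hJc : IsCompact (u '' G) := hGc.image hu.1.continuous
  obtain ⟨ρ, hρ1, hρ2, hρ3, hρ4, hρ5, hρ6⟩ := cutoff (u '' G) hJc hη0
  obtain ⟨hw, hwD, hwE, hwI, hwF⟩ := h7 Ω m (HS S) u ρ hΩ hΩb hm hfin hu huI hρ1 hρ2 hρ3 hρ4
  set r := ∫ s, ρ s with hr
  have hr0 : 0 ≤ r := integral_nonneg hρ3
  set j := (volume (u '' G)).toReal with hj
  -- integrability
  have hpc : Continuous fun z => ‖fderiv ℝ u z‖ ^ 2 := hcont.pow 2
  have hps : HasCompactSupport fun z => ‖fderiv ℝ u z‖ ^ 2 :=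
    hcsn.comp_left (g := fun t : ℝ => t ^ 2) (by norm_num)
  have hint2 : Integrable (fun z => ‖fderiv ℝ u z‖ ^ 2) (HS S) :=
    hpc.integrable_of_hasCompactSupport hps
  have hrc : Continuous fun z => ρ (u z) * ‖fderiv ℝ u z‖ ^ 2 :=
    (hρ1.continuous.comp hu.1.continuous).mul hpc
  have hint3 : Integrable (fun z => ρ (u z) * ‖fderiv ℝ u z‖ ^ 2) (HS S) :=
    hrc.integrable_of_hasCompactSupport hps.mul_left
  have hGS : (μH[1] : Measure ℂ).restrict G = (HS S).restrict G := by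
    rw [Measure.restrict_restrict hGc.measurableSet, inter_eq_self_of_subset_left inter_subset_left]
  -- the area inequality
  have hA : t' * j ≤ ∫ z in G, ‖fderiv ℝ u z‖ ^ 2 ∂(HS S) := by
    have h1 := h8 u G hu.1 hu.2.1 hGc.measurableSet hGf
    rw [hGS] at h1
    have h2 : (∫⁻ z in G, ENNReal.ofReal ‖fderiv ℝ u z‖ ∂(HS S)) ≤
        ∫⁻ z in G, ENNReal.ofReal (‖fderiv ℝ u z‖ ^ 2 / t') ∂(HS S) := by
      refine setLIntegral_mono' hGc.measurableSet fun z hz => ?_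
      refine ENNReal.ofReal_le_ofReal ?_
      rw [le_div_iff₀ ht'0, sq]
      exact mul_le_mul_of_nonneg_left hz.2 (norm_nonneg _)
    have h3 : (∫⁻ z in G, ENNReal.ofReal (‖fderiv ℝ u z‖ ^ 2 / t') ∂(HS S)) =
        ENNReal.ofReal (∫ z in G, ‖fderiv ℝ u z‖ ^ 2 / t' ∂(HS S)) := by
      rw [ofReal_integral_eq_lintegral_ofReal (hint2.restrict.div_const t')]
      exact Eventually.of_forall fun z => by positivity
    have h4 := h1.trans (h2.trans h3.le)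
    have h5 : 0 ≤ ∫ z in G, ‖fderiv ℝ u z‖ ^ 2 / t' ∂(HS S) :=
      integral_nonneg fun z => by positivity
    have h6 : j ≤ ∫ z in G, ‖fderiv ℝ u z‖ ^ 2 / t' ∂(HS S) := by
      rw [hj]
      exact ENNReal.toReal_le_of_le_ofReal h5 h4
    rw [integral_div, le_div_iff₀ ht'0] at h6
    linarith
  have hB : (∫ z in G, ‖fderiv ℝ u z‖ ^ 2 ∂(HS S)) ≤ ∫ z, ρ (u z) * ‖fderiv ℝ u z‖ ^ 2 ∂(HS S) := by
    have h1 : (∫ z in G, ‖fderiv ℝ u z‖ ^ 2 ∂(HS S)) =
        ∫ z in G, ρ (u z) * ‖fderiv ℝ u z‖ ^ 2 ∂(HS S) := by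
      refine setIntegral_congr_fun hGc.measurableSet fun z hz => ?_
      show ‖fderiv ℝ u z‖ ^ 2 = ρ (u z) * ‖fderiv ℝ u z‖ ^ 2
      rw [hρ5 (u z) ⟨z, hz, rfl⟩, one_mul]
    rw [h1]
    exact setIntegral_le_integral hint3 (Eventually.of_forall fun z =>
      mul_nonneg (hρ3 _) (sq_nonneg _))
  -- smallness
  have hjs : δ * j ≤ (1 + C) * η := by
    have h1 : m * (t' * j) ≤ (energy Ω m (HS S) u - l) + l * (r * V) :=
      (mul_le_mul_of_nonneg_left (hA.trans hB) hm.le).trans hwF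
    have h2 : l * (r * V) ≤ C * (j + η) := by
      have h3 : l * (r * V) ≤ Λ * (r * V) :=
        mul_le_mul_of_nonneg_right hΛ (mul_nonneg hr0 (by linarith))
      have h4 : Λ * (r * V) = C * r := by rw [hCdef]; ring
      rw [h4] at h3
      exact h3.trans (mul_le_mul_of_nonneg_left hρ6 hC0)
    rw [hδ]
    nlinarith
  have hrs : r * V ≤ η * κ := by
    have h1 : j ≤ (1 + C) * η / δ := by
      rw [le_div_iff₀ hδ0]
      linarith
    have h2 : r ≤ η * K := by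
      have h3 : (1 + C) * η / δ + η = η * K := by
        rw [hK]; ring
      linarith
    have h4 : η * κ = η * K * V := by rw [hκ]; ring
    rw [h4]
    exact mul_le_mul_of_nonneg_right h2 (by linarith)
  have hηκ : η * κ < 1 := by
    by_contra hcon
    rw [not_lt] at hcon
    have h1 : t ^ 2 ≤ η * (κ * t ^ 2) := by nlinarith [sq_nonneg t]
    nlinarith
  set I := ∫ z in Ω, (trunc ρ u z) ^ 2 with hI
  have hI1 : 1 - η * κ ≤ I := by linarith
  have hI0 : 0 < I := by linarith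
  have hc : (Real.sqrt I)⁻¹ ^ 2 = I⁻¹ := by
    rw [inv_pow, Real.sq_sqrt hI0.le]
  have hwE' : energy Ω m (HS S) (trunc ρ u) ≤ l + η := by
    have h1 : 0 ≤ m * ∫ z, ρ (u z) * ‖fderiv ℝ u z‖ ^ 2 ∂(HS S) :=
      mul_nonneg hm.le (integral_nonneg fun z => mul_nonneg (hρ3 _) (sq_nonneg _))
    linarith
  refine ⟨fun z => (Real.sqrt I)⁻¹ * trunc ρ u z, test_scale hw _, ?_, ?_, ?_⟩
  · rw [int_scale, hc, ← hI, inv_mul_cancel₀ hI0.ne']
  · rw [energy_scale hw, hc, inv_mul_eq_div, div_le_iff₀ hI0]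
    have h1 : (l + ε) * (1 - η * κ) ≤ (l + ε) * I :=
      mul_le_mul_of_nonneg_left hI1 (by linarith)
    nlinarith
  · intro x hx
    rw [norm_fderiv_scale hw, abs_of_pos (inv_pos.2 (Real.sqrt_pos.2 hI0)), hwD,
      inv_mul_le_iff₀ (Real.sqrt_pos.2 hI0)]
    have h1 : (1 - ρ (u x)) * ‖fderiv ℝ u x‖ ≤ t' := by
      by_cases hxt : t' ≤ ‖fderiv ℝ u x‖
      · rw [hρ5 (u x) ⟨x, ⟨hx, hxt⟩, rfl⟩, sub_self, zero_mul]
        exact ht'0.le
      · rw [not_le] at hxt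
        have h2 := hρ3 (u x)
        have h3 := norm_nonneg (fderiv ℝ u x)
        nlinarith
    refine h1.trans ?_
    have h4 : t' = Real.sqrt (t' ^ 2) := (Real.sqrt_sq ht'0.le).symm
    have h5 : Real.sqrt I * t = Real.sqrt (I * t ^ 2) := by
      rw [Real.sqrt_mul hI0.le, Real.sqrt_sq ht0.le]
    rw [h4, h5]
    refine Real.sqrt_le_sqrt ?_
    have h6 : (1 - η * κ) * t ^ 2 ≤ I * t ^ 2 := mul_le_mul_of_nonneg_right hI1 (sq_nonneg t)
    have h7 : (1 - η * κ) * t ^ 2 = t ^ 2 - η * (κ * t ^ 2) := by ring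
    rw [h7] at h6
    exact le_trans (by linarith) h6

end Pool.Agent.H59.ST
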