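import Mathlib
import Pool.Agent.H234.ST.Defs

/-! ST11: lower bound for the rectangle stiffened by the segment (written by helper358). -/

set_option autoImplicit false

open MeasureTheory Set Metric Filter Topology
open scoped ContDiff ENNReal

namespace Pool.Agent.H358.ST

open Pool.Agent.H234.ST

/-- squared norm of a linear form on the plane -/
theorem norm_sq_form (l : ℂ →L[ℝ] ℝ) : ‖l‖ ^ 2 = (l 1) ^ 2 + (l Complex.I) ^ 2 := by
  set a := l 1 with ha
  set b := l Complex.I with hb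
  have hl : ∀ z : ℂ, l z = a * z.re + b * z.im := by
    intro z
    have h : z = z.re • (1 : ℂ) + z.im • Complex.I := by
      simp [Complex.re_add_im]
    conv_lhs => rw [h]
    rw [map_add, map_smul, map_smul, smul_eq_mul, smul_eq_mul]
    ring
  have hz : ∀ z : ℂ, ‖z‖ ^ 2 = z.re ^ 2 + z.im ^ 2 := by
    intro z
    rw [Complex.sq_norm, Complex.normSq_apply]
    ring
  have hM : ‖l‖ = √(a ^ 2 + b ^ 2) := by
    apply ContinuousLinearMap.opNorm_eq_of_bounds (Real.sqrt_nonneg _)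
    · intro z
      rw [hl, Real.norm_eq_abs]
      apply abs_le_of_sq_le_sq _ (by positivity)
      rw [mul_pow, Real.sq_sqrt (by positivity), hz]
      nlinarith [sq_nonneg (a * z.im - b * z.re)]
    · intro N hN h
      have h1 := h (⟨a, b⟩ : ℂ)
      rw [hl, Real.norm_eq_abs] at h1
      simp only at h1
      have h2 : ‖(⟨a, b⟩ : ℂ)‖ = √(a ^ 2 + b ^ 2) := by
        rw [← Real.sqrt_sq (norm_nonneg (⟨a, b⟩ : ℂ)), hz]
      rw [h2, show a * a + b * b = √(a ^ 2 + b ^ 2) ^ 2 by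
        rw [Real.sq_sqrt (by positivity)]; ring, abs_of_nonneg (by positivity)] at h1
      rcases eq_or_lt_of_le (Real.sqrt_nonneg (a ^ 2 + b ^ 2)) with h3 | h3
      · rw [← h3]; exact hN
      · nlinarith
  rw [hM, Real.sq_sqrt (by positivity)]

/-- the derivative vanishes where the function vanishes locally -/
theorem deriv_zero_left {g : ℝ → ℝ} {ε x : ℝ} (h : ∀ x ≤ ε, g x = 0) (hx : x < ε) :
    deriv g x = 0 := by
  have h1 : g =ᶠ[𝓝 x] fun _ => 0 := by
    filter_upwards [eventually_lt_nhds hx] with y hy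
    exact h y hy.le
  rw [h1.deriv_eq, deriv_const]

theorem deriv_zero_right {g : ℝ → ℝ} {ε x : ℝ} (h : ∀ x, ε ≤ x → g x = 0) (hx : ε < x) :
    deriv g x = 0 := by
  have h1 : g =ᶠ[𝓝 x] fun _ => 0 := by
    filter_upwards [eventually_gt_nhds hx] with y hy
    exact h y hy.le
  rw [h1.deriv_eq, deriv_const]

/-- vertical slices -/
theorem vert (hP : S_Picone) {g : ℝ → ℝ} {ε : ℝ} (hε : 0 < ε) (hε1 : ε < 1)
    (hg : ContDiff ℝ 1 g) (h0 : ∀ x ≤ ε, g x = 0) (h1 : ∀ x, 1 - ε ≤ x → g x = 0) :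
    Real.pi ^ 2 * (∫ x, g x ^ 2) ≤ ∫ x, deriv g x ^ 2 := by
  have e1 : ∫ x in (0 : ℝ)..1, g x ^ 2 = ∫ x, g x ^ 2 := by
    apply intervalIntegral.integral_eq_integral_of_support_subset
    intro x hx
    rw [Function.mem_support] at hx
    constructor
    · by_contra h2
      push Not at h2
      exact hx (by rw [h0 x (by linarith)]; simp)
    · by_contra h2
      push Not at h2
      exact hx (by rw [h1 x (by linarith)]; simp)
  have e2 : ∫ x in (0 : ℝ)..1, deriv g x ^ 2 = ∫ x, deriv g x ^ 2 := by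
    apply intervalIntegral.integral_eq_integral_of_support_subset
    intro x hx
    rw [Function.mem_support] at hx
    constructor
    · by_contra h2
      push Not at h2
      exact hx (by rw [deriv_zero_left h0 (by linarith)]; simp)
    · by_contra h2
      push Not at h2
      exact hx (by rw [deriv_zero_right h1 (by linarith)]; simp)
  rw [← e1, ← e2]
  have hlim : Tendsto (fun κ : ℝ => κ ^ 2 * ∫ x in (0 : ℝ)..1, g x ^ 2) (𝓝[<] Real.pi)
      (𝓝 (Real.pi ^ 2 * ∫ x in (0 : ℝ)..1, g x ^ 2)) := by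
    apply tendsto_nhdsWithin_of_tendsto_nhds
    exact ((continuous_id.pow 2).mul continuous_const).tendsto _
  refine le_of_tendsto hlim ?_
  have hpos : ∀ᶠ κ : ℝ in 𝓝[<] Real.pi, 0 < κ :=
    nhdsWithin_le_nhds (eventually_gt_nhds Real.pi_pos)
  filter_upwards [hpos, self_mem_nhdsWithin] with κ hκ hκ2
  have h3 := hP g ε κ 1 hε hε1 hκ (by rw [mul_one]; exact hκ2) hg h0
  rw [h1 1 (by linarith)] at h3
  simpa using h3

/-- horizontal slices -/
theorem horiz (hP : S_Picone) {g : ℝ → ℝ} {ε : ℝ} (hε : 0 < ε) (hε1 : ε < 1)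
    (hg : ContDiff ℝ 1 g) (h0 : ∀ x ≤ ε, g x = 0) (h1 : ∀ x, 3 - ε ≤ x → g x = 0) :
    Real.pi ^ 2 / 4 * (∫ x, g x ^ 2) - Real.pi * g (3 / 2) ^ 2 ≤ ∫ x, deriv g x ^ 2 := by
  have e1 : ∫ x in (0 : ℝ)..3, g x ^ 2 = ∫ x, g x ^ 2 := by
    apply intervalIntegral.integral_eq_integral_of_support_subset
    intro x hx
    rw [Function.mem_support] at hx
    constructor
    · by_contra h2
      push Not at h2
      exact hx (by rw [h0 x (by linarith)]; simp)
    · by_contra h2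
      push Not at h2
      exact hx (by rw [h1 x (by linarith)]; simp)
  have e2 : ∫ x in (0 : ℝ)..3, deriv g x ^ 2 = ∫ x, deriv g x ^ 2 := by
    apply intervalIntegral.integral_eq_integral_of_support_subset
    intro x hx
    rw [Function.mem_support] at hx
    constructor
    · by_contra h2
      push Not at h2
      exact hx (by rw [deriv_zero_left h0 (by linarith)]; simp)
    · by_contra h2
      push Not at h2
      exact hx (by rw [deriv_zero_right h1 (by linarith)]; simp)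
  have hgc : Continuous fun x => g x ^ 2 := hg.continuous.pow 2
  have hdc : Continuous fun x => deriv g x ^ 2 := (hg.continuous_deriv le_rfl).pow 2
  have s1 : (∫ x in (0 : ℝ)..(3 / 2), g x ^ 2) + ∫ x in (3 / 2 : ℝ)..3, g x ^ 2 =
      ∫ x in (0 : ℝ)..3, g x ^ 2 :=
    intervalIntegral.integral_add_adjacent_intervals (hgc.intervalIntegrable _ _)
      (hgc.intervalIntegrable _ _)
  have s2 : (∫ x in (0 : ℝ)..(3 / 2), deriv g x ^ 2) + ∫ x in (3 / 2 : ℝ)..3, deriv g x ^ 2 =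
      ∫ x in (0 : ℝ)..3, deriv g x ^ 2 :=
    intervalIntegral.integral_add_adjacent_intervals (hdc.intervalIntegrable _ _)
      (hdc.intervalIntegrable _ _)
  have r1 : ∫ x in (0 : ℝ)..(3 / 2), g (3 - x) ^ 2 = ∫ x in (3 / 2 : ℝ)..3, g x ^ 2 := by
    have := intervalIntegral.integral_comp_sub_left (a := (0 : ℝ)) (b := 3 / 2)
      (fun x => g x ^ 2) 3
    rw [this]
    norm_num
  have hder : ∀ x, deriv (fun x => g (3 - x)) x = -deriv g (3 - x) := by
    intro x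
    exact deriv_comp_const_sub g 3 x
  have r2 : ∫ x in (0 : ℝ)..(3 / 2), deriv (fun x => g (3 - x)) x ^ 2 =
      ∫ x in (3 / 2 : ℝ)..3, deriv g x ^ 2 := by
    have e3 : (fun x => deriv (fun x => g (3 - x)) x ^ 2) = fun x => deriv g (3 - x) ^ 2 := by
      funext x
      rw [hder, neg_sq]
    rw [e3]
    have := intervalIntegral.integral_comp_sub_left (a := (0 : ℝ)) (b := 3 / 2)
      (fun x => deriv g x ^ 2) 3
    rw [this]
    norm_num
  have hcot : Real.pi / 2 * Real.cos (Real.pi / 2 * (3 / 2)) /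
      Real.sin (Real.pi / 2 * (3 / 2)) = -(Real.pi / 2) := by
    have e3 : Real.pi / 2 * (3 / 2) = Real.pi - Real.pi / 4 := by ring
    rw [e3, Real.cos_pi_sub, Real.sin_pi_sub, Real.cos_pi_div_four, Real.sin_pi_div_four]
    have : (√2 / 2 : ℝ) ≠ 0 := by positivity
    field_simp
  have hpi := Real.pi_pos
  have p1 := hP g ε (Real.pi / 2) (3 / 2) hε (by linarith) (by linarith) (by linarith) hg h0
  have p2 := hP (fun x => g (3 - x)) ε (Real.pi / 2) (3 / 2) hε (by linarith) (by linarith)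
    (by linarith) (hg.comp (contDiff_const.sub contDiff_id)) (fun x hx => h1 _ (by linarith))
  rw [hcot] at p1 p2
  rw [r1, r2] at p2
  have e4 : (3 : ℝ) - 3 / 2 = 3 / 2 := by norm_num
  simp only [e4] at p2
  rw [← e1, ← e2, ← s1, ← s2]
  have e5 : (Real.pi / 2) ^ 2 = Real.pi ^ 2 / 4 := by ring
  rw [e5] at p1 p2
  linarith

/-- the isometry onto the line of the segment -/
theorem iso_seg : Isometry (fun y : ℝ => (⟨3 / 2, y⟩ : ℂ)) := by
  refine Isometry.of_dist_eq fun x y => ?_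
  rw [Complex.dist_eq_re_im, Real.dist_eq]
  simp [Real.sqrt_sq_eq_abs]

theorem HS_seg : HS seg = ((volume : Measure ℝ).restrict (Icc 0 1)).map
    (fun y : ℝ => (⟨3 / 2, y⟩ : ℂ)) := by
  have hm : Measurable (fun y : ℝ => (⟨3 / 2, y⟩ : ℂ)) := iso_seg.continuous.measurable
  have hseg : seg = (fun y : ℝ => (⟨3 / 2, y⟩ : ℂ)) '' Icc 0 1 := by
    ext z
    constructor
    · rintro ⟨h1, h2, h3⟩
      exact ⟨z.im, ⟨h2, h3⟩, Complex.ext h1.symm rfl⟩
    · rintro ⟨y, hy, rfl⟩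
      exact ⟨rfl, hy.1, hy.2⟩
  ext A hA
  rw [Measure.restrict_apply hA, Measure.map_apply hm hA, Measure.restrict_apply (hm hA)]
  have e1 : A ∩ seg = (fun y : ℝ => (⟨3 / 2, y⟩ : ℂ)) ''
      ((fun y : ℝ => (⟨3 / 2, y⟩ : ℂ)) ⁻¹' A ∩ Icc 0 1) := by
    rw [hseg]
    ext z
    constructor
    · rintro ⟨h1, s, hs, rfl⟩
      exact ⟨s, ⟨h1, hs⟩, rfl⟩
    · rintro ⟨s, ⟨h1, hs⟩, rfl⟩
      exact ⟨h1, s, hs, rfl⟩
  rw [e1, iso_seg.hausdorffMeasure_image (Or.inl zero_le_one), hausdorffMeasure_real]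

/-- integrals over the plane -/
theorem plane (F : ℂ → ℝ) (hF : Integrable F) :
    Integrable (fun p : ℝ × ℝ => F ⟨p.1, p.2⟩) (volume.prod volume) ∧
    ∫ z, F z = ∫ p : ℝ × ℝ, F ⟨p.1, p.2⟩ ∂(volume.prod volume) := by
  have hmp := Complex.volume_preserving_equiv_real_prod.symm
  have hemb := Complex.measurableEquivRealProd.symm.measurableEmbedding
  constructor
  · have h1 := (hmp.integrable_comp_emb hemb (g := F)).2 hF
    exact h1
  · exact (hmp.integral_comp hemb F).symm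

/-- the main inequality -/
theorem main (hP : S_Picone) {m : ℝ} (hm : 1 ≤ m) {u : ℂ → ℝ} (hu : IsTest rect u) :
    5 * Real.pi ^ 2 / 4 * (∫ z in rect, u z ^ 2) ≤ energy rect m (HS seg) u := by
  obtain ⟨hsm, hcs, hsup⟩ := hu
  have hopen : IsOpen rect := by
    have e : rect = (Complex.re ⁻¹' Ioo 0 3) ∩ (Complex.im ⁻¹' Ioo 0 1) := by
      ext z
      simp only [rect, mem_ofPred_eq, mem_inter_iff, mem_preimage, mem_Ioo]
      tauto
    rw [e]
    exact (isOpen_Ioo.preimage Complex.continuous_re).inter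
      (isOpen_Ioo.preimage Complex.continuous_im)
  obtain ⟨δ, hδ, hδ2⟩ := hcs.isCompact.exists_thickening_subset_open hopen hsup
  -- margins
  obtain ⟨ε, hε, hε1, hεδ⟩ : ∃ ε : ℝ, 0 < ε ∧ ε < 1 ∧ ε < δ :=
    ⟨min δ 1 / 2, by positivity, by
      have := min_le_right δ 1
      linarith, by
      have := min_le_left δ 1
      linarith⟩
  have hshift : ∀ z ∈ tsupport u, ∀ w : ℂ, ‖w‖ ≤ ε → z + w ∈ rect := by
    intro z hz w hw
    apply hδ2
    rw [mem_thickening_iff]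
    refine ⟨z, hz, ?_⟩
    rw [dist_eq_norm, add_sub_cancel_left]
    linarith
  have hmar : ∀ z ∈ tsupport u, ε < z.re ∧ z.re < 3 - ε ∧ ε < z.im ∧ z.im < 1 - ε := by
    intro z hz
    have n1 : ‖((ε : ℝ) : ℂ)‖ ≤ ε := by
      rw [Complex.norm_real, Real.norm_eq_abs, abs_of_pos hε]
    have n2 : ‖(-((ε : ℝ) : ℂ))‖ ≤ ε := by rw [norm_neg]; exact n1
    have n3 : ‖((ε : ℝ) : ℂ) * Complex.I‖ ≤ ε := by
      rw [norm_mul, Complex.norm_I, mul_one]; exact n1
    have n4 : ‖-(((ε : ℝ) : ℂ) * Complex.I)‖ ≤ ε := by rw [norm_neg]; exact n3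
    have a1 := hshift z hz _ n1
    have a2 := hshift z hz _ n2
    have a3 := hshift z hz _ n3
    have a4 := hshift z hz _ n4
    simp only [rect, mem_ofPred_eq, Complex.add_re, Complex.add_im, Complex.neg_re,
      Complex.neg_im, Complex.ofReal_re, Complex.ofReal_im, Complex.mul_re, Complex.mul_im,
      Complex.I_re, Complex.I_im, mul_zero, mul_one, add_zero, sub_zero, neg_zero] at a1 a2 a3 a4
    refine ⟨by linarith [a2.1], by linarith [a1.2.1], by linarith [a4.2.2.1], by linarith [a3.2.2.2]⟩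
  have hzero : ∀ z : ℂ, (z.re ≤ ε ∨ 3 - ε ≤ z.re ∨ z.im ≤ ε ∨ 1 - ε ≤ z.im) → z ∉ tsupport u := by
    intro z hz hz2
    obtain ⟨h1, h2, h3, h4⟩ := hmar z hz2
    rcases hz with h | h | h | h <;> linarith
  have hu0 : ∀ z : ℂ, z ∉ tsupport u → u z = 0 := fun z hz => image_eq_zero_of_notMem_tsupport hz
  have hd0 : ∀ z : ℂ, z ∉ tsupport u → fderiv ℝ u z = 0 := by
    intro z hz
    exact image_eq_zero_of_notMem_tsupport (fun h => hz (tsupport_fderiv_subset ℝ h))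
  -- continuity and compact supports
  have hdiff : Differentiable ℝ u := hsm.differentiable (by simp)
  have hfc : Continuous (fderiv ℝ u) := hsm.continuous_fderiv (by simp)
  have hfs : HasCompactSupport (fderiv ℝ u) := hcs.fderiv ℝ
  have cU : Continuous fun z => u z ^ 2 := hsm.continuous.pow 2
  have cA : Continuous fun z => (fderiv ℝ u z 1) ^ 2 := (hfc.clm_apply continuous_const).pow 2
  have cB : Continuous fun z => (fderiv ℝ u z Complex.I) ^ 2 :=
    (hfc.clm_apply continuous_const).pow 2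
  have sU : HasCompactSupport fun z => u z ^ 2 := hcs.comp_left (g := fun x : ℝ => x ^ 2) (by simp)
  have sA : HasCompactSupport fun z => (fderiv ℝ u z 1) ^ 2 :=
    hfs.comp_left (g := fun L : ℂ →L[ℝ] ℝ => (L 1) ^ 2) (by simp)
  have sB : HasCompactSupport fun z => (fderiv ℝ u z Complex.I) ^ 2 :=
    hfs.comp_left (g := fun L : ℂ →L[ℝ] ℝ => (L Complex.I) ^ 2) (by simp)
  have iU : Integrable fun z => u z ^ 2 := cU.integrable_of_hasCompactSupport sU
  have iA : Integrable fun z => (fderiv ℝ u z 1) ^ 2 := cA.integrable_of_hasCompactSupport sA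
  have iB : Integrable fun z => (fderiv ℝ u z Complex.I) ^ 2 :=
    cB.integrable_of_hasCompactSupport sB
  obtain ⟨pU, qU⟩ := plane _ iU
  obtain ⟨pA, qA⟩ := plane _ iA
  obtain ⟨pB, qB⟩ := plane _ iB
  -- integrals over the rectangle
  have tU : ∫ z in rect, u z ^ 2 = ∫ z, u z ^ 2 := by
    apply setIntegral_eq_integral_of_forall_compl_eq_zero
    intro z hz
    rw [hu0 z fun h => hz (hsup h)]
    simp
  have tD : ∫ z in rect, ‖fderiv ℝ u z‖ ^ 2 =
      (∫ z, (fderiv ℝ u z 1) ^ 2) + ∫ z, (fderiv ℝ u z Complex.I) ^ 2 := by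
    rw [← integral_add iA iB, setIntegral_eq_integral_of_forall_compl_eq_zero]
    · refine integral_congr_ae (ae_of_all _ fun z => ?_)
      exact norm_sq_form _
    · intro z hz
      rw [hd0 z fun h => hz (hsup h)]
      simp
  -- slices
  have slx : ∀ x y : ℝ, HasDerivAt (fun x : ℝ => u ⟨x, y⟩) (fderiv ℝ u ⟨x, y⟩ 1) x := by
    intro x y
    have h1 : HasDerivAt (fun x : ℝ => (⟨x, y⟩ : ℂ)) 1 x := by
      have h2 : HasDerivAt (fun x : ℝ => (x : ℂ) + (y : ℂ) * Complex.I) 1 x :=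
        ((hasDerivAt_id x).ofReal_comp).add_const _
      have h3 : (fun x : ℝ => (⟨x, y⟩ : ℂ)) = fun x : ℝ => (x : ℂ) + (y : ℂ) * Complex.I := by
        funext x; exact Complex.mk_eq_add_mul_I x y
      rw [h3]
      exact h2
    exact (hdiff (⟨x, y⟩ : ℂ)).hasFDerivAt.comp_hasDerivAt x h1
  have sly : ∀ x y : ℝ, HasDerivAt (fun y : ℝ => u ⟨x, y⟩) (fderiv ℝ u ⟨x, y⟩ Complex.I) y := by
    intro x y
    have h1 : HasDerivAt (fun y : ℝ => (⟨x, y⟩ : ℂ)) Complex.I y := by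
      have h2 : HasDerivAt (fun y : ℝ => (x : ℂ) + (y : ℂ) * Complex.I) (1 * Complex.I) y :=
        (((hasDerivAt_id y).ofReal_comp).mul_const _).const_add _
      have h3 : (fun y : ℝ => (⟨x, y⟩ : ℂ)) = fun y : ℝ => (x : ℂ) + (y : ℂ) * Complex.I := by
        funext y; exact Complex.mk_eq_add_mul_I x y
      rw [one_mul] at h2
      rw [h3]
      exact h2
    exact (hdiff (⟨x, y⟩ : ℂ)).hasFDerivAt.comp_hasDerivAt y h1
  have cmx : ∀ y : ℝ, ContDiff ℝ ∞ fun x : ℝ => (⟨x, y⟩ : ℂ) := by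
    intro y
    have h3 : (fun x : ℝ => (⟨x, y⟩ : ℂ)) = fun x : ℝ => (x : ℂ) + (y : ℂ) * Complex.I := by
      funext x; exact Complex.mk_eq_add_mul_I x y
    rw [h3]
    exact Complex.ofRealCLM.contDiff.add contDiff_const
  have cmy : ∀ x : ℝ, ContDiff ℝ ∞ fun y : ℝ => (⟨x, y⟩ : ℂ) := by
    intro x
    have h3 : (fun y : ℝ => (⟨x, y⟩ : ℂ)) = fun y : ℝ => (x : ℂ) + (y : ℂ) * Complex.I := by
      funext y; exact Complex.mk_eq_add_mul_I x y
    rw [h3]
    exact contDiff_const.add (Complex.ofRealCLM.contDiff.mul contDiff_const)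
  have dx : ∀ y : ℝ, deriv (fun x : ℝ => u ⟨x, y⟩) = fun x => fderiv ℝ u ⟨x, y⟩ 1 :=
    fun y => funext fun x => (slx x y).deriv
  have dy : ∀ x : ℝ, deriv (fun y : ℝ => u ⟨x, y⟩) = fun y => fderiv ℝ u ⟨x, y⟩ Complex.I :=
    fun x => funext fun y => (sly x y).deriv
  have H1 : ∀ y : ℝ, Real.pi ^ 2 / 4 * (∫ x : ℝ, u ⟨x, y⟩ ^ 2) - Real.pi * u ⟨3 / 2, y⟩ ^ 2 ≤
      ∫ x : ℝ, (fderiv ℝ u ⟨x, y⟩ 1) ^ 2 := by
    intro y
    have h1 := horiz hP (g := fun x : ℝ => u ⟨x, y⟩) hε hε1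
      ((hsm.comp (cmx y)).of_le (by simp))
      (fun x hx => hu0 _ (hzero _ (Or.inl hx)))
      (fun x hx => hu0 _ (hzero _ (Or.inr (Or.inl hx))))
    rw [dx y] at h1
    exact h1
  have V1 : ∀ x : ℝ, Real.pi ^ 2 * (∫ y : ℝ, u ⟨x, y⟩ ^ 2) ≤
      ∫ y : ℝ, (fderiv ℝ u ⟨x, y⟩ Complex.I) ^ 2 := by
    intro x
    have h1 := vert hP (g := fun y : ℝ => u ⟨x, y⟩) hε hε1
      ((hsm.comp (cmy x)).of_le (by simp))
      (fun y hy => hu0 _ (hzero _ (Or.inr (Or.inr (Or.inl hy)))))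
      (fun y hy => hu0 _ (hzero _ (Or.inr (Or.inr (Or.inr hy)))))
    rw [dy x] at h1
    exact h1
  -- the line of the segment
  have zseg : ∀ y : ℝ, y ∉ Icc (0 : ℝ) 1 → (⟨3 / 2, y⟩ : ℂ) ∉ tsupport u := by
    intro y hy
    apply hzero
    rw [mem_Icc, not_and_or, not_le, not_le] at hy
    rcases hy with h | h
    · right; right; left
      show y ≤ ε
      linarith
    · right; right; right
      show 1 - ε ≤ y
      linarith
  have lineint : ∀ F : ℂ → ℝ, Continuous F → (∀ z, z ∉ tsupport u → F z = 0) →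
      Integrable fun y : ℝ => F ⟨3 / 2, y⟩ := by
    intro F hF hF0
    have hc : Continuous fun y : ℝ => F ⟨3 / 2, y⟩ := hF.comp iso_seg.continuous
    apply hc.integrable_of_hasCompactSupport
    apply HasCompactSupport.intro isCompact_Icc
    intro y hy
    exact hF0 _ (zseg y hy)
  have lU := lineint _ cU fun z hz => by rw [hu0 z hz]; simp
  have lA := lineint _ cA fun z hz => by rw [hd0 z hz]; simp
  have lB := lineint _ cB fun z hz => by rw [hd0 z hz]; simp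
  -- Fubini
  have F1 : ∫ z, (fderiv ℝ u z 1) ^ 2 = ∫ y : ℝ, ∫ x : ℝ, (fderiv ℝ u ⟨x, y⟩ 1) ^ 2 := by
    rw [qA, integral_prod_symm _ pA]
  have F2 : ∫ z, u z ^ 2 = ∫ y : ℝ, ∫ x : ℝ, u ⟨x, y⟩ ^ 2 := by
    rw [qU, integral_prod_symm _ pU]
  have F3 : ∫ z, (fderiv ℝ u z Complex.I) ^ 2 =
      ∫ x : ℝ, ∫ y : ℝ, (fderiv ℝ u ⟨x, y⟩ Complex.I) ^ 2 := by
    rw [qB, integral_prod _ pB]
  have F4 : ∫ z, u z ^ 2 = ∫ x : ℝ, ∫ y : ℝ, u ⟨x, y⟩ ^ 2 := by
    rw [qU, integral_prod _ pU]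
  have iyU : Integrable fun y : ℝ => ∫ x : ℝ, u ⟨x, y⟩ ^ 2 := pU.integral_prod_right
  have iyA : Integrable fun y : ℝ => ∫ x : ℝ, (fderiv ℝ u ⟨x, y⟩ 1) ^ 2 := pA.integral_prod_right
  have ixU : Integrable fun x : ℝ => ∫ y : ℝ, u ⟨x, y⟩ ^ 2 := pU.integral_prod_left
  have ixB : Integrable fun x : ℝ => ∫ y : ℝ, (fderiv ℝ u ⟨x, y⟩ Complex.I) ^ 2 :=
    pB.integral_prod_left
  have H2 : Real.pi ^ 2 / 4 * (∫ z, u z ^ 2) - Real.pi * (∫ y : ℝ, u ⟨3 / 2, y⟩ ^ 2) ≤
      ∫ z, (fderiv ℝ u z 1) ^ 2 := by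
    rw [F1, F2, ← integral_const_mul, ← integral_const_mul,
      ← integral_sub (iyU.const_mul _) (lU.const_mul _)]
    exact integral_mono ((iyU.const_mul _).sub (lU.const_mul _)) iyA H1
  have V2 : Real.pi ^ 2 * (∫ z, u z ^ 2) ≤ ∫ z, (fderiv ℝ u z Complex.I) ^ 2 := by
    rw [F3, F4, ← integral_const_mul]
    exact integral_mono (ixU.const_mul _) ixB V1
  have V3 := V1 (3 / 2)
  -- the segment
  have hseg : ∫ z, ‖fderiv ℝ u z‖ ^ 2 ∂(HS seg) =
      (∫ y : ℝ, (fderiv ℝ u ⟨3 / 2, y⟩ 1) ^ 2) +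
        ∫ y : ℝ, (fderiv ℝ u ⟨3 / 2, y⟩ Complex.I) ^ 2 := by
    have h1 : ∫ z, ‖fderiv ℝ u z‖ ^ 2 ∂(HS seg) =
        ∫ y in Icc (0 : ℝ) 1, ‖fderiv ℝ u ⟨3 / 2, y⟩‖ ^ 2 := by
      rw [HS_seg]
      have hcc : Continuous fun z => ‖fderiv ℝ u z‖ ^ 2 := hfc.norm.pow 2
      exact integral_map iso_seg.continuous.measurable.aemeasurable hcc.aestronglyMeasurable
    rw [h1, setIntegral_eq_integral_of_forall_compl_eq_zero, ← integral_add lA lB]
    · refine integral_congr_ae (ae_of_all _ fun y => ?_)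
      exact norm_sq_form _
    · intro y hy
      rw [hd0 _ (zseg y hy)]
      simp
  unfold energy
  rw [tU, tD, hseg]
  have hA0 : 0 ≤ ∫ y : ℝ, (fderiv ℝ u ⟨3 / 2, y⟩ 1) ^ 2 :=
    integral_nonneg fun y => sq_nonneg _
  have hB0 : 0 ≤ ∫ y : ℝ, (fderiv ℝ u ⟨3 / 2, y⟩ Complex.I) ^ 2 :=
    integral_nonneg fun y => sq_nonneg _
  have hpi := Real.pi_gt_three
  obtain ⟨X, hX⟩ : ∃ X, X = ∫ z, u z ^ 2 := ⟨_, rfl⟩
  obtain ⟨Y, hY⟩ : ∃ Y, Y = ∫ y : ℝ, u ⟨3 / 2, y⟩ ^ 2 := ⟨_, rfl⟩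
  obtain ⟨a, ha⟩ : ∃ a, a = ∫ y : ℝ, (fderiv ℝ u ⟨3 / 2, y⟩ 1) ^ 2 := ⟨_, rfl⟩
  obtain ⟨b, hb⟩ : ∃ b, b = ∫ y : ℝ, (fderiv ℝ u ⟨3 / 2, y⟩ Complex.I) ^ 2 := ⟨_, rfl⟩
  rw [← hX, ← hY] at H2
  rw [← hX] at V2
  rw [← hY, ← hb] at V3
  rw [← hb] at hB0
  rw [← ha] at hA0
  rw [← hX, ← ha, ← hb]
  have hY1 : Real.pi * Y ≤ b := by
    by_contra hcon
    push Not at hcon
    have h1 : 0 < Real.pi * Y := lt_of_le_of_lt hB0 hcon
    have h2 : Real.pi ^ 2 * Y = Real.pi * (Real.pi * Y) := by ring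
    nlinarith
  have hm1 : a + b ≤ m * (a + b) := by nlinarith
  linarith

theorem lower (h10 : S_Picone) : S_Lower := by
  intro m hm
  unfold lam
  have hc : (⟨3 / 2, 1 / 2⟩ : ℂ) ∈ rect := by
    refine ⟨by norm_num, by norm_num, by norm_num, by norm_num⟩
  apply le_csInf
  · let f : ContDiffBump (⟨3 / 2, 1 / 2⟩ : ℂ) := ⟨1 / 8, 1 / 4, by norm_num, by norm_num⟩
    refine ⟨_, fun z => f z, ⟨f.contDiff, f.hasCompactSupport, ?_⟩, ?_, rfl⟩
    · rw [show (fun z => f z) = f from rfl, f.tsupport_eq]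
      intro z hz
      rw [mem_closedBall, dist_eq_norm] at hz
      have h1 := (Complex.abs_re_le_norm (z - ⟨3 / 2, 1 / 2⟩)).trans hz
      have h2 := (Complex.abs_im_le_norm (z - ⟨3 / 2, 1 / 2⟩)).trans hz
      rw [Complex.sub_re] at h1
      rw [Complex.sub_im] at h2
      have h3 := abs_le.1 h1
      have h4 := abs_le.1 h2
      have e1 : f.rOut = 1 / 4 := rfl
      rw [e1] at h3 h4
      simp only at h3 h4
      refine ⟨?_, ?_, ?_, ?_⟩ <;> linarith [h3.1, h3.2, h4.1, h4.2]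
    · intro h0
      have h1 : f (⟨3 / 2, 1 / 2⟩ : ℂ) = 1 := by
        apply f.one_of_mem_closedBall
        exact mem_closedBall_self f.rIn_pos.le
      have h2 := congrFun h0 (⟨3 / 2, 1 / 2⟩ : ℂ)
      simp only [Pi.zero_apply] at h2
      rw [h1] at h2
      exact one_ne_zero h2
  · rintro q ⟨u, hu, hu0, rfl⟩
    have hpos : 0 < ∫ z in rect, u z ^ 2 := by
      have tU : ∫ z in rect, u z ^ 2 = ∫ z, u z ^ 2 := by
        apply setIntegral_eq_integral_of_forall_compl_eq_zero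
        intro z hz
        rw [image_eq_zero_of_notMem_tsupport fun h => hz (hu.2.2 h)]
        simp
      rw [tU]
      have hcont : Continuous fun z => u z ^ 2 := hu.1.continuous.pow 2
      have hcs : HasCompactSupport fun z => u z ^ 2 :=
        hu.2.1.comp_left (g := fun x : ℝ => x ^ 2) (by simp)
      obtain ⟨z, hz⟩ := Function.ne_iff.1 hu0
      have hz2 : u z ^ 2 ≠ 0 := pow_ne_zero 2 hz
      exact hcont.integral_pos_of_hasCompactSupport_nonneg_nonzero hcs (fun z => sq_nonneg _) hz2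
    rw [le_div_iff₀ hpos]
    exact main h10 hm hu

end Pool.Agent.H358.ST
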