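import Pool.Agent.H234.ST.Defs

/-!
# One-dimensional test functions
-/

set_option autoImplicit false

open MeasureTheory Set
open scoped ContDiff

namespace Pool.Agent.H803.ST234

open Pool.Agent.H234.ST

/-- Primitive of a shifted smooth step. -/
noncomputable def prim (s : ℝ) : ℝ := ∫ x in (0 : ℝ)..s, Real.smoothTransition (x - 1)

theorem cont_st : Continuous (fun x : ℝ => Real.smoothTransition (x - 1)) :=
  Real.smoothTransition.continuous.comp (continuous_id.sub continuous_const)

theorem prim_hasDerivAt (s : ℝ) : HasDerivAt prim (Real.smoothTransition (s - 1)) s := by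
  unfold prim
  exact intervalIntegral.integral_hasDerivAt_right (cont_st.intervalIntegrable _ _)
    (cont_st.stronglyMeasurableAtFilter _ _) cont_st.continuousAt

theorem prim_contDiff : ContDiff ℝ ∞ prim := by
  rw [contDiff_infty_iff_deriv]
  refine ⟨fun s => (prim_hasDerivAt s).differentiableAt, ?_⟩
  have : deriv prim = fun x : ℝ => Real.smoothTransition (x - 1) := by
    funext s; exact (prim_hasDerivAt s).deriv
  rw [this]
  exact (Real.smoothTransition.contDiff).comp (contDiff_id.sub contDiff_const)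

theorem prim_zero_of_le {s : ℝ} (h : s ≤ 1) : prim s = 0 := by
  unfold prim
  rw [intervalIntegral.integral_congr (g := fun _ => (0 : ℝ))]
  · simp
  · intro x hx
    have hx1 : x ≤ 1 := by
      rcases Set.mem_uIcc.1 hx with h1 | h1
      · linarith [h1.2]
      · linarith [h1.2]
    exact Real.smoothTransition.zero_of_nonpos (by linarith)

theorem prim_nonneg (s : ℝ) : 0 ≤ prim s := by
  rcases le_total s 1 with h | h
  · rw [prim_zero_of_le h]
  · unfold prim
    exact intervalIntegral.integral_nonneg (by linarith) fun x _ =>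
      Real.smoothTransition.nonneg _

theorem prim_ge (s : ℝ) : s - 2 ≤ prim s := by
  rcases le_total s 2 with h | h
  · linarith [prim_nonneg s]
  · unfold prim
    rw [← intervalIntegral.integral_add_adjacent_intervals (a := 0) (b := 2) (c := s)
      (cont_st.intervalIntegrable _ _) (cont_st.intervalIntegrable _ _)]
    have h1 : 0 ≤ ∫ x in (0:ℝ)..2, Real.smoothTransition (x - 1) :=
      intervalIntegral.integral_nonneg (by norm_num) fun x _ => Real.smoothTransition.nonneg _
    have h2 : ∫ x in (2:ℝ)..s, Real.smoothTransition (x - 1) = s - 2 := by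
      rw [intervalIntegral.integral_congr (g := fun _ => (1 : ℝ))]
      · simp
      · intro x hx
        rw [Set.uIcc_of_le h] at hx
        exact Real.smoothTransition.one_of_one_le (by linarith [hx.1])
    linarith

/-- The truncation at level `d`. -/
noncomputable def trunc (d s : ℝ) : ℝ := d * prim (s / d)

theorem trunc_contDiff (d : ℝ) : ContDiff ℝ ∞ (trunc d) := by
  unfold trunc
  exact contDiff_const.mul (prim_contDiff.comp (contDiff_id.div_const d))

theorem trunc_hasDerivAt {d : ℝ} (hd : 0 < d) (s : ℝ) :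
    HasDerivAt (trunc d) (Real.smoothTransition (s / d - 1)) s := by
  have h1 : HasDerivAt (fun x : ℝ => x / d) (1 / d) s := (hasDerivAt_id s).div_const d
  have h2 := ((prim_hasDerivAt (s / d)).comp s h1).const_mul d
  have h3 : d * (Real.smoothTransition (s / d - 1) * (1 / d)) =
      Real.smoothTransition (s / d - 1) := by
    field_simp
  rw [h3] at h2
  exact h2

theorem trunc_zero {d s : ℝ} (hd : 0 < d) (h : s ≤ d) : trunc d s = 0 := by
  unfold trunc
  rw [prim_zero_of_le ((div_le_one hd).2 h), mul_zero]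

theorem trunc_nonneg {d : ℝ} (hd : 0 < d) (s : ℝ) : 0 ≤ trunc d s :=
  mul_nonneg hd.le (prim_nonneg _)

theorem trunc_ge {d : ℝ} (hd : 0 < d) (s : ℝ) : s - 2 * d ≤ trunc d s := by
  unfold trunc
  have := mul_le_mul_of_nonneg_left (prim_ge (s / d)) hd.le
  rw [mul_sub, mul_div_cancel₀ _ hd.ne'] at this
  linarith

theorem trunc_sq {d s : ℝ} (hd : 0 < d) (hs : 0 ≤ s) : s ^ 2 - 4 * d * s ≤ trunc d s ^ 2 := by
  have h1 := trunc_ge hd s
  have h2 := trunc_nonneg hd s
  rcases le_total s (2 * d) with h | h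
  · nlinarith
  · nlinarith

theorem oned : S_OneD := by
  intro l ε hl hε
  set K : ℝ := 10 / l ^ 2 + ε with hK
  have hK0 : 0 < K := by positivity
  set d : ℝ := ε * l ^ 2 / (30 * K) with hd
  have hd0 : 0 < d := by positivity
  set q : ℝ → ℝ := fun x => x * (l - x) with hq
  set g : ℝ → ℝ := fun x => trunc d (q x) with hg
  have hqc : ContDiff ℝ ∞ q := contDiff_id.mul (contDiff_const.sub contDiff_id)
  have hgc : ContDiff ℝ ∞ g := (trunc_contDiff d).comp hqc
  have hqd : ∀ x, HasDerivAt q (l - 2 * x) x := by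
    intro x
    have h1 := (hasDerivAt_id x).mul ((hasDerivAt_const x l).sub (hasDerivAt_id x))
    have e : (1 : ℝ) * (l - x) + x * (0 - 1) = l - 2 * x := by ring
    have h2 : HasDerivAt q ((1 : ℝ) * (l - x) + x * (0 - 1)) x := h1
    rw [e] at h2
    exact h2
  have hgd : ∀ x, deriv g x = Real.smoothTransition (q x / d - 1) * (l - 2 * x) := fun x =>
    ((trunc_hasDerivAt hd0 (q x)).comp x (hqd x)).deriv
  have hqo : ∀ x, x ∉ Ioo (0 : ℝ) l → q x ≤ 0 := by
    intro x hx
    rw [mem_Ioo, not_and_or, not_lt, not_lt] at hx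
    show x * (l - x) ≤ 0
    rcases hx with h | h
    · exact mul_nonpos_of_nonpos_of_nonneg h (by linarith)
    · exact mul_nonpos_of_nonneg_of_nonpos (by linarith) (by linarith)
  have hcl : IsClosed {x | d ≤ q x} := isClosed_le continuous_const hqc.continuous
  have hsub : {x | d ≤ q x} ⊆ Ioo 0 l := by
    intro x hx
    by_contra h
    have h1 : d ≤ q x := hx
    linarith [hqo x h]
  have hts : tsupport g ⊆ {x | d ≤ q x} := by
    apply closure_minimal _ hcl
    intro x hx
    by_contra h
    have h1 : ¬ d ≤ q x := h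
    exact hx (trunc_zero hd0 (not_le.1 h1).le)
  have hcpt : HasCompactSupport g :=
    isCompact_Icc.of_isClosed_subset (isClosed_tsupport g)
      ((hts.trans hsub).trans Ioo_subset_Icc_self)
  -- the integrals
  have hi1 : ∫ x, g x ^ 2 = ∫ x in (0 : ℝ)..l, g x ^ 2 := by
    rw [intervalIntegral.integral_of_le hl.le]
    symm
    apply setIntegral_eq_integral_of_forall_compl_eq_zero
    intro x hx
    have h1 : q x ≤ 0 := hqo x fun h => hx (Ioo_subset_Ioc_self h)
    show trunc d (q x) ^ 2 = 0
    rw [trunc_zero hd0 (by linarith), zero_pow two_ne_zero]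
  have hi2 : ∫ x, deriv g x ^ 2 = ∫ x in (0 : ℝ)..l, deriv g x ^ 2 := by
    rw [intervalIntegral.integral_of_le hl.le]
    symm
    apply setIntegral_eq_integral_of_forall_compl_eq_zero
    intro x hx
    have h1 : q x ≤ 0 := hqo x fun h => hx (Ioo_subset_Ioc_self h)
    have h2 : q x / d ≤ 0 := div_nonpos_of_nonpos_of_nonneg h1 hd0.le
    rw [hgd, Real.smoothTransition.zero_of_nonpos (by linarith), zero_mul, zero_pow two_ne_zero]
  have hdc : Continuous (deriv g) := hgc.continuous_deriv (by simp)
  have hlow : l ^ 5 / 30 - 2 / 3 * d * l ^ 3 ≤ ∫ x, g x ^ 2 := by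
    rw [hi1]
    have h1 : ∫ x in (0 : ℝ)..l, (q x ^ 2 - 4 * d * q x) = l ^ 5 / 30 - 2 / 3 * d * l ^ 3 := by
      have h2 : ∀ x ∈ uIcc (0 : ℝ) l, HasDerivAt (fun x => l ^ 2 * x ^ 3 / 3 - l * x ^ 4 / 2 +
          x ^ 5 / 5 - 4 * d * (l * x ^ 2 / 2 - x ^ 3 / 3)) (q x ^ 2 - 4 * d * q x) x := by
        intro x _
        have a2 := hasDerivAt_pow 2 x
        have a3 := hasDerivAt_pow 3 x
        have a4 := hasDerivAt_pow 4 x
        have a5 := hasDerivAt_pow 5 x
        have b := ((((a3.const_mul (l ^ 2)).div_const 3).sub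
          ((a4.const_mul l).div_const 2)).add (a5.div_const 5)).sub
            ((((a2.const_mul l).div_const 2).sub (a3.div_const 3)).const_mul (4 * d))
        have e : (l ^ 2 * (((3 : ℕ) : ℝ) * x ^ (3 - 1)) / 3 - l * (((4 : ℕ) : ℝ) * x ^ (4 - 1)) / 2 +
            ((5 : ℕ) : ℝ) * x ^ (5 - 1) / 5) - 4 * d * (l * (((2 : ℕ) : ℝ) * x ^ (2 - 1)) / 2 -
              ((3 : ℕ) : ℝ) * x ^ (3 - 1) / 3) = q x ^ 2 - 4 * d * q x := by
          simp only [hq]
          push_cast
          ring
        rw [e] at b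
        exact b
      rw [intervalIntegral.integral_eq_sub_of_hasDerivAt h2
        (((hqc.continuous.pow 2).sub (continuous_const.mul hqc.continuous)).intervalIntegrable _ _)]
      ring
    rw [← h1]
    apply intervalIntegral.integral_mono_on hl.le
    · exact ((hqc.continuous.pow 2).sub (continuous_const.mul hqc.continuous)).intervalIntegrable _ _
    · exact (hgc.continuous.pow 2).intervalIntegrable _ _
    · intro x hx
      exact trunc_sq hd0 (mul_nonneg hx.1 (by linarith [hx.2]))
  have hup : ∫ x, deriv g x ^ 2 ≤ l ^ 3 / 3 := by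
    rw [hi2]
    have h1 : ∫ x in (0 : ℝ)..l, (l - 2 * x) ^ 2 = l ^ 3 / 3 := by
      have h2 : ∀ x ∈ uIcc (0 : ℝ) l, HasDerivAt (fun x => l ^ 2 * x - 2 * l * x ^ 2 +
          4 * x ^ 3 / 3) ((l - 2 * x) ^ 2) x := by
        intro x _
        have b := (((hasDerivAt_id x).const_mul (l ^ 2)).sub
          ((hasDerivAt_pow 2 x).const_mul (2 * l))).add
            (((hasDerivAt_pow 3 x).const_mul 4).div_const 3)
        have e : l ^ 2 * 1 - 2 * l * (((2 : ℕ) : ℝ) * x ^ (2 - 1)) +
            4 * (((3 : ℕ) : ℝ) * x ^ (3 - 1)) / 3 = (l - 2 * x) ^ 2 := by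
          push_cast
          ring
        rw [e] at b
        exact b
      rw [intervalIntegral.integral_eq_sub_of_hasDerivAt h2
        (((continuous_const.sub (continuous_const.mul continuous_id)).pow 2).intervalIntegrable _ _)]
      ring
    rw [← h1]
    apply intervalIntegral.integral_mono_on hl.le
    · exact (hdc.pow 2).intervalIntegrable _ _
    · exact ((continuous_const.sub (continuous_const.mul continuous_id)).pow 2).intervalIntegrable
        _ _
    · intro x _
      rw [hgd, mul_pow]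
      have h3 := Real.smoothTransition.nonneg (q x / d - 1)
      have h4 := Real.smoothTransition.le_one (q x / d - 1)
      have h5 : Real.smoothTransition (q x / d - 1) ^ 2 ≤ 1 := pow_le_one₀ h3 h4
      have h6 : 0 ≤ (l - 2 * x) ^ 2 := sq_nonneg _
      nlinarith
  have hkey : l ^ 3 / 3 ≤ K * (l ^ 5 / 30 - 2 / 3 * d * l ^ 3) := by
    have e1 : K * d = ε * l ^ 2 / 30 := by
      rw [hd]
      field_simp
    have e2 : K * l ^ 5 = 10 * l ^ 3 + ε * l ^ 5 := by
      rw [hK]
      field_simp
    have e3 : K * (l ^ 5 / 30 - 2 / 3 * d * l ^ 3) =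
        K * l ^ 5 / 30 - 2 / 3 * (K * d) * l ^ 3 := by ring
    rw [e3, e1, e2]
    have : 0 ≤ ε * l ^ 5 := by positivity
    nlinarith
  have hl3 : 0 < l ^ 3 / 3 := by positivity
  have hpos : 0 < ∫ x, g x ^ 2 := by
    by_contra hcon
    have h1 : l ^ 5 / 30 - 2 / 3 * d * l ^ 3 ≤ 0 := hlow.trans (not_lt.1 hcon)
    have h2 : K * (l ^ 5 / 30 - 2 / 3 * d * l ^ 3) ≤ 0 :=
      mul_nonpos_of_nonneg_of_nonpos hK0.le h1
    linarith
  refine ⟨g, hgc, hcpt, hts.trans hsub, hpos, hup.trans (hkey.trans ?_)⟩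
  exact mul_le_mul_of_nonneg_left hlow hK0.le

end Pool.Agent.H803.ST234
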