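import Pool.Agent.H234.ST.Defs

/-!
# One-dimensional Picone inequality
-/

set_option autoImplicit false

open MeasureTheory Set Metric Filter Topology
open scoped ContDiff ENNReal

namespace Pool.Agent.H670.ST

open Pool.Agent.H234.ST

theorem picone : S_Picone := by
  intro g ε κ l hε hεl hκ hκl hg h0
  have hl : 0 < l := hε.trans hεl
  have hd : Continuous (deriv g) := hg.continuous_deriv le_rfl
  have hgc : Continuous g := hg.continuous
  have hsin : ∀ x ∈ Icc ε l, 0 < Real.sin (κ * x) := by
    intro x hx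
    refine Real.sin_pos_of_pos_of_lt_pi (mul_pos hκ (hε.trans_le hx.1)) ?_
    exact lt_of_le_of_lt (mul_le_mul_of_nonneg_left hx.2 hκ.le) hκl
  set φ : ℝ → ℝ := fun x => κ * Real.cos (κ * x) / Real.sin (κ * x) with hφ
  have hφc : ContinuousOn φ (Icc ε l) := by
    refine ContinuousOn.div (by fun_prop) (by fun_prop) fun x hx => (hsin x hx).ne'
  have hφd : ∀ x ∈ Icc ε l, HasDerivAt φ (-κ ^ 2 - φ x ^ 2) x := by
    intro x hx
    have hs := (hsin x hx).ne'
    have hm : HasDerivAt (fun y : ℝ => κ * y) κ x := by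
      simpa using (hasDerivAt_id x).const_mul κ
    have h1 : HasDerivAt (fun y : ℝ => Real.cos (κ * y)) (-Real.sin (κ * x) * κ) x := hm.cos
    have h2 : HasDerivAt (fun y : ℝ => Real.sin (κ * y)) (Real.cos (κ * x) * κ) x := hm.sin
    have h3 := (h1.const_mul κ).div h2 hs
    refine h3.congr_deriv ?_
    simp only [hφ]
    field_simp
  set H' : ℝ → ℝ := fun x => 2 * g x * deriv g x * φ x + g x ^ 2 * (-κ ^ 2 - φ x ^ 2) with hH'
  have hHd : ∀ x ∈ uIcc ε l, HasDerivAt (fun y => g y ^ 2 * φ y) (H' x) x := by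
    intro x hx
    rw [uIcc_of_le hεl.le] at hx
    have h1 : HasDerivAt g (deriv g x) x := (hg.differentiable (by norm_num) x).hasDerivAt
    have h2 := (h1.pow 2).mul (hφd x hx)
    refine h2.congr_deriv ?_
    simp only [hH', Pi.pow_apply]
    ring
  have hH'c : ContinuousOn H' (Icc ε l) := by
    refine ContinuousOn.add (ContinuousOn.mul (by fun_prop) hφc) (ContinuousOn.mul (by fun_prop) ?_)
    exact continuousOn_const.sub (hφc.pow 2)
  have hH'i : IntervalIntegrable H' volume ε l := by
    apply ContinuousOn.intervalIntegrable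
    rwa [uIcc_of_le hεl.le]
  have hint : ∫ x in ε..l, H' x = g l ^ 2 * φ l := by
    rw [intervalIntegral.integral_eq_sub_of_hasDerivAt hHd hH'i, h0 ε le_rfl]
    ring
  have i1 : ∀ a b : ℝ, IntervalIntegrable (fun x => g x ^ 2) volume a b := fun a b =>
    (hgc.pow 2).intervalIntegrable a b
  have i2 : ∀ a b : ℝ, IntervalIntegrable (fun x => deriv g x ^ 2) volume a b := fun a b =>
    (hd.pow 2).intervalIntegrable a b
  have hmono : ∫ x in ε..l, H' x ≤ ∫ x in ε..l, (deriv g x ^ 2 - κ ^ 2 * g x ^ 2) := by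
    refine intervalIntegral.integral_mono_on hεl.le hH'i ((i2 ε l).sub ((i1 ε l).const_mul _)) ?_
    intro x _
    simp only [hH']
    nlinarith [sq_nonneg (deriv g x - φ x * g x)]
  rw [hint, intervalIntegral.integral_sub (i2 ε l) ((i1 ε l).const_mul _),
    intervalIntegral.integral_const_mul] at hmono
  have hz : ∫ x in (0 : ℝ)..ε, g x ^ 2 = 0 := by
    rw [intervalIntegral.integral_congr (g := fun _ => (0 : ℝ))]
    · simp
    · intro x hx
      rw [uIcc_of_le hε.le] at hx
      simp only [h0 x hx.2]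
      norm_num
  have hp : 0 ≤ ∫ x in (0 : ℝ)..ε, deriv g x ^ 2 :=
    intervalIntegral.integral_nonneg hε.le fun x _ => sq_nonneg _
  rw [← intervalIntegral.integral_add_adjacent_intervals (i1 0 ε) (i1 ε l),
    ← intervalIntegral.integral_add_adjacent_intervals (i2 0 ε) (i2 ε l), hz, zero_add]
  have e1 : φ l = κ * Real.cos (κ * l) / Real.sin (κ * l) := rfl
  rw [e1] at hmono
  linarith

end Pool.Agent.H670.ST
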