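import Pool.Agent.H234.ST.Defs
import Pool.Agent.H234.ST.Path

/-!
# ST4: almost every point of a continuum of finite length is a tangent point
-/

set_option autoImplicit false

open MeasureTheory Set Metric Filter Topology
open scoped ContDiff ENNReal

namespace Pool.Agent.H52.ST

open Pool.Agent.H234.ST

/-- paths from a point to every other point -/
theorem exists_path' {S : Set ℂ} (hc : IsCompact S) (hp : IsPreconnected S) (hf : μH[1] S ≠ ⊤)
    {x y : ℂ} (hx : x ∈ S) (hy : y ∈ S) : ∃ (g : ℝ → ℂ) (L : ℝ), g 0 = x ∧ g 1 = y ∧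
      (∀ t ∈ Icc (0 : ℝ) 1, g t ∈ S) ∧
      ∀ s ∈ Icc (0 : ℝ) 1, ∀ t ∈ Icc (0 : ℝ) 1, dist (g s) (g t) ≤ L * |s - t| := by
  by_cases h : x = y
  · refine ⟨fun _ => x, 0, rfl, h, fun _ _ => hx, fun s _ t _ => ?_⟩
    rw [dist_self, zero_mul]
  · obtain ⟨g, h1, h2, h3, h4⟩ := Lib.exists_path hc hp hx hy h hf
    exact ⟨g, _, h1, h2, h3, h4⟩

theorem lip_cont {g : ℝ → ℂ} {L : ℝ}
    (h : ∀ s ∈ Icc (0 : ℝ) 1, ∀ t ∈ Icc (0 : ℝ) 1, dist (g s) (g t) ≤ L * |s - t|) :
    ContinuousOn g (Icc (0 : ℝ) 1) := by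
  have hlip : LipschitzOnWith (Real.toNNReal L) g (Icc 0 1) := by
    apply LipschitzOnWith.of_dist_le_mul
    intro s hs t ht
    rw [Real.dist_eq]
    exact (h s hs t ht).trans (mul_le_mul_of_nonneg_right (Real.le_coe_toNNReal L) (abs_nonneg _))
  exact hlip.continuousOn

theorem tan (h2 : S_Cover) (h3 : S_Path) : S_Tan := by
  intro S hc hp hf hnt
  obtain ⟨x0, hx0⟩ := hnt.nonempty
  have hne : Nonempty S := ⟨⟨x0, hx0⟩⟩
  -- a dense sequence
  obtain ⟨x, hxS, hxd⟩ : ∃ x : ℕ → ℂ, (∀ n, x n ∈ S) ∧ ∀ y ∈ S, ∀ ε : ℝ, 0 < ε →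
      ∃ n, dist (x n) y < ε := by
    refine ⟨fun n => (TopologicalSpace.denseSeq S n : ℂ), fun n => Subtype.mem _, ?_⟩
    intro y hy ε hε
    have hd := TopologicalSpace.denseRange_denseSeq S
    obtain ⟨n, hn⟩ := hd.exists_dist_lt (⟨y, hy⟩ : S) hε
    refine ⟨n, ?_⟩
    rw [dist_comm]
    exact hn
  have hpath := fun n => exists_path' hc hp hf hx0 (hxS n)
  choose g L g0 g1 gS gL using hpath
  -- the images
  set P : ℕ → Set ℂ := fun i => g i '' Icc (0 : ℝ) 1 with hP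
  have hPc : ∀ i, IsCompact (P i) := fun i => isCompact_Icc.image_of_continuousOn (lip_cont (gL i))
  have hPp : ∀ i, IsPreconnected (P i) := fun i => isPreconnected_Icc.image _ (lip_cont (gL i))
  have hP0 : ∀ i, x0 ∈ P i := fun i => ⟨0, ⟨le_refl _, zero_le_one⟩, g0 i⟩
  have hP1 : ∀ i, x i ∈ P i := fun i => ⟨1, ⟨zero_le_one, le_refl _⟩, g1 i⟩
  have hPS : ∀ i, P i ⊆ S := by
    rintro i _ ⟨t, ht, rfl⟩
    exact gS i t ht
  set T : ℕ → Set ℂ := fun n => ⋃ i : Fin (n + 1), P i with hT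
  have hTc : ∀ n, IsCompact (T n) := fun n => isCompact_iUnion (fun i : Fin (n + 1) => hPc i)
  have hTp : ∀ n, IsPreconnected (T n) := fun n =>
    isPreconnected_iUnion ⟨x0, mem_iInter.2 (fun i : Fin (n + 1) => hP0 i)⟩ (fun i => hPp i)
  have hTm : ∀ n i, i ≤ n → x i ∈ T n := fun n i hi =>
    mem_iUnion.2 ⟨(⟨i, by omega⟩ : Fin (n + 1)), hP1 i⟩
  set Ti : Set ℂ := ⋃ i, P i with hTi
  have hTTi : ∀ n, T n ⊆ Ti := by
    intro n z hz
    obtain ⟨i, hz⟩ := mem_iUnion.1 hz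
    exact mem_iUnion.2 ⟨i, hz⟩
  have hTiS : Ti ⊆ S := iUnion_subset hPS
  have hTim : MeasurableSet Ti := MeasurableSet.iUnion (fun i => (hPc i).isClosed.measurableSet)
  -- density of the sets `T n`
  have claim : ∀ a ∈ S, ∀ ρ : ℝ, 0 < ρ → ∃ r : ℝ, 0 < r ∧ r < ρ ∧
      ∀ᶠ k in atTop, ENNReal.ofReal (1 / 3 * (2 * r)) ≤
        ((μH[1] : Measure ℂ).restrict (T k)) (closedBall a r) := by
    intro a ha ρ hρ
    obtain ⟨y0, hy0, hya⟩ := hnt.exists_ne a
    have hd : 0 < dist a y0 := dist_pos.2 hya.symm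
    set r := min (ρ / 2) (dist a y0 / 8) with hr
    have hr0 : 0 < r := lt_min (by linarith) (by linarith)
    have hrρ : r ≤ ρ / 2 := min_le_left _ _
    have hrd : r ≤ dist a y0 / 8 := min_le_right _ _
    obtain ⟨i, hi⟩ := hxd a ha (r / 3) (by linarith)
    obtain ⟨j, hj⟩ := hxd y0 hy0 (dist a y0 / 4) (by linarith)
    refine ⟨r, hr0, by linarith, ?_⟩
    filter_upwards [eventually_ge_atTop (max i j)] with n hn
    have hin : i ≤ n := (le_max_left i j).trans hn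
    have hjn : j ≤ n := (le_max_right i j).trans hn
    have hdist : 1 / 3 * (2 * r) ≤ dist (x i) (x j) := by
      have t1 := dist_triangle a (x i) y0
      have t2 := dist_triangle (x i) (x j) y0
      rw [dist_comm a (x i)] at t1
      linarith
    have hb := Lib.H_ball (hTp n) (hTm n i hin) (hTm n j hjn) hdist
    rw [Measure.restrict_apply isClosed_closedBall.measurableSet]
    refine hb.trans (measure_mono ?_)
    rintro z ⟨hz1, hz2⟩
    refine ⟨?_, hz1⟩
    rw [mem_ball] at hz2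
    rw [mem_closedBall]
    have t3 := dist_triangle z (x i) a
    linarith
  -- the uncovered part is a null set
  have hfin : IsFiniteMeasure ((μH[1] : Measure ℂ).restrict Ti) := by
    refine ⟨?_⟩
    rw [Measure.restrict_apply_univ]
    exact lt_of_le_of_lt (measure_mono hTiS) (lt_top_iff_ne_top.2 hf)
  have hA0 : ((μH[1] : Measure ℂ).restrict Ti) (S \ Ti) = 0 := by
    rw [Measure.restrict_apply' hTim]
    have : (S \ Ti) ∩ Ti = ∅ := by
      ext z
      simp
    rw [this, measure_empty]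
  have hle : ∀ ε : ℝ≥0∞, ε ≠ 0 → ENNReal.ofReal (1 / 3) * μH[1] (S \ Ti) ≤ ε := by
    intro ε hε
    obtain ⟨U, hAU, hU, hUε⟩ := Set.exists_isOpen_lt_of_lt (μ := (μH[1] : Measure ℂ).restrict Ti)
      (S \ Ti) ε (by rw [hA0]; exact pos_iff_ne_zero.2 hε)
    refine h2 (S \ Ti) U (fun n => (μH[1] : Measure ℂ).restrict (T n)) (1 / 3) ε (by norm_num) hU
      hAU ?_ (fun a ha => claim a ha.1)
    refine (Eventually.of_forall (fun n => ?_)).frequently
    have : ((μH[1] : Measure ℂ).restrict (T n)) U ≤ ((μH[1] : Measure ℂ).restrict Ti) U :=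
      Measure.restrict_mono (hTTi n) le_rfl U
    exact this.trans hUε.le
  have hnull : μH[1] (S \ Ti) = 0 := by
    have h0 : ENNReal.ofReal (1 / 3) * μH[1] (S \ Ti) = 0 := by
      by_contra hne
      have hlt := ENNReal.half_pos hne
      have h4 := hle _ hlt.ne'
      have h5 : ENNReal.ofReal (1 / 3) * μH[1] (S \ Ti) ≠ ⊤ := by
        refine ENNReal.mul_ne_top ENNReal.ofReal_ne_top ?_
        exact ne_top_of_le_ne_top hf (measure_mono sdiff_subset)
      exact absurd (ENNReal.half_lt_self hne h5) (not_lt.2 h4)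
    rcases mul_eq_zero.1 h0 with h | h
    · exfalso
      rw [ENNReal.ofReal_eq_zero] at h
      norm_num at h
    · exact h
  -- conclusion
  have hsub : {z | z ∈ S ∧ ¬ Tan S z} ⊆
      (S \ Ti) ∪ ⋃ i, {z | z ∈ g i '' Icc (0 : ℝ) 1 ∧ ¬ Tan S z} := by
    rintro z ⟨hz1, hz2⟩
    by_cases hz : z ∈ Ti
    · right
      obtain ⟨i, hi⟩ := mem_iUnion.1 hz
      exact mem_iUnion.2 ⟨i, hi, hz2⟩
    · left
      exact ⟨hz1, hz⟩
  refine measure_mono_null hsub (measure_union_null hnull (measure_iUnion_null (fun i => ?_)))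
  exact h3 S (g i) (L i) (gS i) (gL i)

end Pool.Agent.H52.ST
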