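import Pool.Agent.H234.ST.Defs

set_option autoImplicit false

open MeasureTheory Set Metric Filter Topology
open scoped ContDiff ENNReal

namespace Pool.Agent.H975.ST

open Pool.Agent.H234.ST

theorem fub (f k : ℝ → ℝ) : (∫ z : ℂ, f z.re * k z.im) = (∫ x, f x) * ∫ y, k y := by
  have h1 := Complex.volume_preserving_equiv_real_prod.integral_comp
    Complex.measurableEquivRealProd.measurableEmbedding (fun p : ℝ × ℝ => f p.1 * k p.2)
  have h2 : (∫ p : ℝ × ℝ, f p.1 * k p.2) = (∫ x, f x) * ∫ y, k y := integral_prod_mul f k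
  rw [← h2, ← h1]
  rfl

theorem fub_int (f k : ℝ → ℝ) (hf : Integrable f) (hk : Integrable k) :
    Integrable (fun z : ℂ => f z.re * k z.im) := by
  have h1 : Integrable (fun p : ℝ × ℝ => f p.1 * k p.2) := hf.mul_prod hk
  have h2 := (Complex.volume_preserving_equiv_real_prod.integrable_comp_emb
    Complex.measurableEquivRealProd.measurableEmbedding
    (g := fun p : ℝ × ℝ => f p.1 * k p.2)).2 h1
  exact h2

theorem int_sq (g : ℝ → ℝ) (hg : Continuous g) (hc : HasCompactSupport g) :
    Integrable (fun x => g x ^ 2) := by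
  have h : HasCompactSupport (fun x => g x ^ 2) := by
    have := hc.comp_left (g := fun t : ℝ => t ^ 2) (by simp)
    exact this
  exact (hg.pow 2).integrable_of_hasCompactSupport h

theorem upper (h12 : S_OneD) : S_Upper := by
  intro m
  obtain ⟨g, gs, gc, gt, gp, ge⟩ := h12 3 (1 / 10) (by norm_num) (by norm_num)
  obtain ⟨h, hs, hc, ht, hp, he⟩ := h12 1 (1 / 10) (by norm_num) (by norm_num)
  set u : ℂ → ℝ := fun z => g z.re * h z.im with hu
  have hus : ContDiff ℝ ∞ u :=
    (gs.comp Complex.reCLM.contDiff).mul (hs.comp Complex.imCLM.contDiff)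
  have hK : IsCompact (tsupport g ×ℂ tsupport h) := gc.isCompact.reProdIm hc.isCompact
  have hsup : Function.support u ⊆ tsupport g ×ℂ tsupport h := by
    intro z hz
    rw [Function.mem_support] at hz
    rw [Complex.mem_reProdIm]
    exact ⟨subset_tsupport g (left_ne_zero_of_mul hz), subset_tsupport h (right_ne_zero_of_mul hz)⟩
  have htsup : tsupport u ⊆ tsupport g ×ℂ tsupport h := closure_minimal hsup hK.isClosed
  have hrect : tsupport u ⊆ rect := by
    intro z hz
    have h1 := Complex.mem_reProdIm.1 (htsup hz)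
    have h2 := gt h1.1
    have h3 := ht h1.2
    exact ⟨h2.1, h2.2, h3.1, h3.2⟩
  have hcs : HasCompactSupport u := hK.of_isClosed_subset (isClosed_tsupport u) htsup
  have htest : IsTest rect u := ⟨hus, hcs, hrect⟩
  -- the denominator
  have hden : (∫ z in rect, u z ^ 2) = (∫ x, g x ^ 2) * ∫ y, h y ^ 2 := by
    rw [setIntegral_eq_integral_of_forall_compl_eq_zero (s := rect) (f := fun z => u z ^ 2)]
    · rw [← fub]
      apply integral_congr_ae
      filter_upwards with z
      simp only [hu]
      ring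
    · intro z hz
      have : u z = 0 := by
        by_contra hne
        exact hz (hrect (subset_tsupport u hne))
      simp [this]
  have hdpos : 0 < (∫ z in rect, u z ^ 2) := by rw [hden]; exact mul_pos gp hp
  have hne : u ≠ 0 := by
    intro h0
    rw [h0] at hdpos
    simp at hdpos
  -- the derivative
  have gd : Differentiable ℝ g := gs.differentiable (by simp)
  have hd : Differentiable ℝ h := hs.differentiable (by simp)
  have hder : ∀ z : ℂ, HasFDerivAt u (g z.re • (deriv h z.im • Complex.imCLM) +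
      h z.im • (deriv g z.re • Complex.reCLM)) z := by
    intro z
    have h1 : HasFDerivAt (fun z : ℂ => g z.re) (deriv g z.re • Complex.reCLM) z :=
      (gd z.re).hasDerivAt.comp_hasFDerivAt z Complex.reCLM.hasFDerivAt
    have h2 : HasFDerivAt (fun z : ℂ => h z.im) (deriv h z.im • Complex.imCLM) z :=
      (hd z.im).hasDerivAt.comp_hasFDerivAt z Complex.imCLM.hasFDerivAt
    exact h1.mul h2
  have hnorm : ∀ z : ℂ, ‖fderiv ℝ u z‖ ^ 2 ≤
      deriv g z.re ^ 2 * h z.im ^ 2 + g z.re ^ 2 * deriv h z.im ^ 2 := by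
    intro z
    rw [(hder z).fderiv]
    set a := h z.im * deriv g z.re with ha
    set b := g z.re * deriv h z.im with hb
    have h0 : 0 ≤ a ^ 2 + b ^ 2 := by positivity
    have h1 : ‖g z.re • (deriv h z.im • Complex.imCLM) +
      h z.im • (deriv g z.re • Complex.reCLM)‖ ≤ Real.sqrt (a ^ 2 + b ^ 2) := by
      apply ContinuousLinearMap.opNorm_le_bound _ (Real.sqrt_nonneg _)
      intro w
      have e1 : (g z.re • (deriv h z.im • Complex.imCLM) +
          h z.im • (deriv g z.re • Complex.reCLM)) w = b * w.im + a * w.re := by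
        simp [ha, hb, mul_assoc]
      rw [e1, Real.norm_eq_abs]
      apply abs_le_of_sq_le_sq _ (by positivity)
      rw [mul_pow, Real.sq_sqrt h0, Complex.sq_norm, Complex.normSq_apply]
      nlinarith [sq_nonneg (b * w.re - a * w.im)]
    calc ‖g z.re • (deriv h z.im • Complex.imCLM) +
        h z.im • (deriv g z.re • Complex.reCLM)‖ ^ 2 ≤ (Real.sqrt (a ^ 2 + b ^ 2)) ^ 2 :=
          pow_le_pow_left₀ (norm_nonneg _) h1 2
      _ = deriv g z.re ^ 2 * h z.im ^ 2 + g z.re ^ 2 * deriv h z.im ^ 2 := by
          rw [Real.sq_sqrt h0]; ring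
  -- the energy
  have gdc : Continuous (deriv g) := gs.continuous_deriv (by simp)
  have hdc : Continuous (deriv h) := hs.continuous_deriv (by simp)
  have i1 := int_sq g gd.continuous gc
  have i2 := int_sq h hd.continuous hc
  have i3 := int_sq (deriv g) gdc gc.deriv
  have i4 := int_sq (deriv h) hdc hc.deriv
  have hen : energy rect m 0 u ≤ (∫ x, deriv g x ^ 2) * (∫ y, h y ^ 2) +
      (∫ x, g x ^ 2) * ∫ y, deriv h y ^ 2 := by
    unfold energy
    rw [integral_zero_measure, mul_zero, add_zero]
    rw [setIntegral_eq_integral_of_forall_compl_eq_zero (s := rect)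
      (f := fun z => ‖fderiv ℝ u z‖ ^ 2)]
    · have j1 := fub_int _ _ i3 i2
      have j2 := fub_int _ _ i1 i4
      have h3 : (∫ z : ℂ, (deriv g z.re ^ 2 * h z.im ^ 2 + g z.re ^ 2 * deriv h z.im ^ 2)) =
          (∫ x, deriv g x ^ 2) * (∫ y, h y ^ 2) + (∫ x, g x ^ 2) * ∫ y, deriv h y ^ 2 := by
        rw [integral_add j1 j2, fub (fun x => deriv g x ^ 2) (fun y => h y ^ 2),
          fub (fun x => g x ^ 2) (fun y => deriv h y ^ 2)]
      rw [← h3]
      apply integral_mono_of_nonneg
      · filter_upwards with z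
        positivity
      · exact j1.add j2
      · filter_upwards with z
        exact hnorm z
    · intro z hz
      have h5 : fderiv ℝ u z = 0 := by
        by_contra hne
        have h6 : z ∈ tsupport (fderiv ℝ u) := subset_tsupport _ hne
        exact hz (hrect (tsupport_fderiv_subset ℝ h6))
      simp [h5]
  have hbound : energy rect m 0 u / (∫ z in rect, u z ^ 2) ≤ 23 / 2 := by
    rw [div_le_iff₀ hdpos, hden]
    refine hen.trans ?_
    have k1 : (∫ x, deriv g x ^ 2) * (∫ y, h y ^ 2) ≤
        ((10 / 3 ^ 2 + 1 / 10) * ∫ x, g x ^ 2) * (∫ y, h y ^ 2) :=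
      mul_le_mul_of_nonneg_right ge hp.le
    have k2 : (∫ x, g x ^ 2) * (∫ y, deriv h y ^ 2) ≤
        (∫ x, g x ^ 2) * ((10 / 1 ^ 2 + 1 / 10) * ∫ y, h y ^ 2) :=
      mul_le_mul_of_nonneg_left he gp.le
    have k3 : 0 < (∫ x, g x ^ 2) * ∫ y, h y ^ 2 := mul_pos gp hp
    nlinarith [k1, k2, k3]
  unfold lam
  refine le_trans (csInf_le ?_ ⟨u, htest, hne, rfl⟩) hbound
  refine ⟨0, ?_⟩
  rintro q ⟨v, -, -, rfl⟩
  unfold energy
  rw [integral_zero_measure, mul_zero, add_zero]
  apply div_nonneg
  · exact integral_nonneg fun z => by positivity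
  · exact integral_nonneg fun z => by positivity

end Pool.Agent.H975.ST

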