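import Pool.Agent.H234.ST.Local
import Pool.Agent.H234.ST.Cover
import Pool.Agent.H234.ST.PathTan
import Pool.Agent.H234.ST.Tan
import Pool.Agent.H234.ST.Golab
import Pool.Agent.H234.ST.Blaschke
import Pool.Agent.H234.ST.Flux
import Pool.Agent.H234.ST.Area
import Pool.Agent.H234.ST.Key
import Pool.Agent.H234.ST.Picone
import Pool.Agent.H234.ST.Lower
import Pool.Agent.H234.ST.OneD
import Pool.Agent.H234.ST.Upper
import Pool.Agent.H234.ST.Bound

set_option autoImplicit false

open MeasureTheory Set Metric Filter Topology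
open scoped ContDiff ENNReal

namespace Pool.Agent.H234.ST

theorem golab_full : S_Golab :=
  golab Pool.Agent.H161.ST.local_bound Pool.Agent.H196.ST.cover
    (Pool.Agent.H52.ST.tan Pool.Agent.H196.ST.cover Pool.Agent.H195.ST.path)

theorem key_full : S_Key := Pool.Agent.H59.ST.key Pool.Agent.H284.ST.flux Pool.Agent.H233.ST.area

theorem saturation :
    ∃ m₀ : ℝ, 0 < m₀ ∧ ∀ m : ℝ, m₀ ≤ m → ∃ L : ℝ, 0 < L ∧ L ≤ 1 ∧
      (∃ μ : Measure ℂ, IsMaximizer rect m L μ) ∧
      ∀ μ : Measure ℂ, IsMaximizer rect m L μ → μ.support.Nonempty ∧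
        μH[1] μ.support = ENNReal.ofReal L ∧ μ = (μH[1] : Measure ℂ).restrict μ.support :=
  main golab_full Pool.Agent.H553.ST.blaschke key_full
    (Pool.Agent.H358.ST.lower Pool.Agent.H670.ST.picone)
    (Pool.Agent.H975.ST.upper Pool.Agent.H803.ST234.oned) bound

end Pool.Agent.H234.ST
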